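import Mathlib
import Pool.Agent.Helper15.RT.PDefs

/-!
# Block crossings and the full twist
-/

namespace Pool.Agent.Helper21.AEC

open Pool.Agent.Helper15.RT

variable {G : Type*} [Monoid G] {m : ℕ}

/-- `s o * s (o + 1) * ... * s (o + b - 1)` -/
def row (s : ℕ → G) (o : ℕ) : ℕ → G
  | 0 => 1
  | b + 1 => row s o b * s (o + b)

theorem posEval_append (s : ℕ → G) (v w : List (ℕ × Bool)) :
    posEval s (v ++ w) = posEval s v * posEval s w := by
  rw [posEval, List.map_append, List.prod_append]
  rfl

theorem posEval_row (s : ℕ → G) (o t b : ℕ) :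
    posEval s ((List.range b).map fun u => (o + t + u, true)) = row s (o + t) b := by
  induction b with
  | zero => rfl
  | succ b ih =>
    rw [List.range_succ, List.map_append, posEval_append, ih, row]
    simp [posEval]

theorem XB_zero (s : ℕ → G) (o b : ℕ) : XB s o 0 b = 1 := rfl

theorem XB_succ (s : ℕ → G) (o a b : ℕ) : XB s o (a + 1) b = row s (o + a) b * XB s o a b := by
  rw [XB, block, List.range_succ, List.reverse_append, List.reverse_singleton,
    List.singleton_append, List.flatMap_cons, posEval_append, posEval_row]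
  rfl

theorem XB_row (s : ℕ → G) (o b : ℕ) : XB s o 1 b = row s o b := by
  rw [XB_succ, XB_zero, mul_one, add_zero]

theorem XB_zero_right (s : ℕ → G) (o a : ℕ) : XB s o a 0 = 1 := by
  induction a with
  | zero => rfl
  | succ a ih => rw [XB_succ, ih, row, one_mul]

theorem XB_add_left (s : ℕ → G) (o a c b : ℕ) :
    XB s o (a + c) b = XB s (o + a) c b * XB s o a b := by
  induction c with
  | zero => rw [add_zero, XB_zero, one_mul]
  | succ c ih => rw [← add_assoc, XB_succ, ih, XB_succ, mul_assoc, add_assoc]

theorem row_add (s : ℕ → G) (o b c : ℕ) : row s o (b + c) = row s o b * row s (o + b) c := by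
  induction c with
  | zero => rw [add_zero, row, mul_one]
  | succ c ih => rw [← add_assoc, row, ih, row, mul_assoc, add_assoc]

/-- moving a row through -/
theorem row_conj {s' s : ℕ → G} {Z : G} {o o' b : ℕ}
    (h : ∀ j, j < b → s' (o' + j) * Z = Z * s (o + j)) : row s' o' b * Z = Z * row s o b := by
  induction b with
  | zero => rw [row, row, one_mul, mul_one]
  | succ b ih =>
    rw [row, mul_assoc, h b (Nat.lt_succ_self b), ← mul_assoc,
      ih fun j hj => h j (Nat.lt_succ_of_lt hj), mul_assoc, row]

/-- moving a block crossing through -/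
theorem XB_conj {s' s : ℕ → G} {Z : G} {o o' a b : ℕ}
    (h : ∀ j, j + 2 ≤ a + b → s' (o' + j) * Z = Z * s (o + j)) :
    XB s' o' a b * Z = Z * XB s o a b := by
  induction a with
  | zero => rw [XB_zero, XB_zero, one_mul, mul_one]
  | succ a ih =>
    rw [XB_succ, mul_assoc, ih fun j hj => h j (by omega), ← mul_assoc,
      row_conj (o := o + a) (s := s) fun j hj => by
        rw [add_assoc, add_assoc]
        exact h (a + j) (by omega), mul_assoc, XB_succ]

theorem JM_conj {s' s : ℕ → G} {Z : G} {n : ℕ} (h : ∀ j, j < n → s' j * Z = Z * s j) :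
    JM s' n * Z = Z * JM s n := by
  induction n with
  | zero => rw [JM, JM, one_mul, mul_one]
  | succ n ih =>
    rw [JM, JM, mul_assoc, h n (Nat.lt_succ_self n), ← mul_assoc, mul_assoc (s' n),
      ih fun j hj => h j (Nat.lt_succ_of_lt hj), ← mul_assoc, h n (Nat.lt_succ_self n)]
    simp only [mul_assoc]

theorem FT_conj {s' s : ℕ → G} {Z : G} {n : ℕ} (h : ∀ j, j + 1 < n → s' j * Z = Z * s j) :
    FT s' n * Z = Z * FT s n := by
  induction n with
  | zero => rw [FT, FT, one_mul, mul_one]
  | succ n ih =>
    rw [FT, FT, mul_assoc, JM_conj (s := s) fun j hj => h j (by omega), ← mul_assoc,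
      ih fun j hj => h j (by omega), mul_assoc]

variable {s : ℕ → G}

theorem XB_add_right (hs : BraidRel m s) {o a b c : ℕ} (h : o + a + b + c ≤ m + 1) :
    XB s o a (b + c) = XB s o a b * XB s (o + b) a c := by
  induction a with
  | zero => rw [XB_zero, XB_zero, XB_zero, one_mul]
  | succ a ih =>
    have h1 : row s (o + a + b) c * XB s o a b = XB s o a b * row s (o + a + b) c := by
      refine row_conj fun j hj => ?_
      refine (XB_conj (s' := s) (s := s) (Z := s (o + a + b + j)) fun i hi => ?_).symm
      exact hs.comm _ _ (by omega) (by omega)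
    rw [XB_succ, ih (by omega), row_add, XB_succ, XB_succ, mul_assoc, ← mul_assoc (row s _ c), h1,
      mul_assoc, mul_assoc, add_right_comm o b a]

theorem row_nat (hs : BraidRel m s) {p b j : ℕ} (h : p + b ≤ m) (hj : j + 1 < b) :
    s (p + 1 + j) * row s p b = row s p b * s (p + j) := by
  obtain ⟨c, rfl⟩ : ∃ c, b = j + 2 + c := ⟨b - (j + 2), by omega⟩
  have h1 : row s p (j + 2 + c) = row s p j * (s (p + j) * s (p + j + 1)) *
      row s (p + j + 2) c := by
    rw [row_add, add_assoc p j 2]
    congr 1
    change row s p (j + 1) * s (p + (j + 1)) = _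
    change row s p j * s (p + j) * s (p + (j + 1)) = _
    rw [mul_assoc, add_assoc]
  have h2 : row s p j * s (p + 1 + j) = s (p + 1 + j) * row s p j :=
    row_conj fun i hi => hs.comm _ _ (by omega) (by omega)
  have h3 : row s (p + j + 2) c * s (p + j) = s (p + j) * row s (p + j + 2) c :=
    row_conj fun i hi => (hs.comm _ _ (by omega) (by omega)).symm
  have h4 := hs.braid (p + j) (by omega)
  have h5 : p + 1 + j = p + j + 1 := by omega
  rw [h5] at h2 ⊢
  rw [h1]
  calc s (p + j + 1) * (row s p j * (s (p + j) * s (p + j + 1)) * row s (p + j + 2) c)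
      = (s (p + j + 1) * row s p j) * (s (p + j) * s (p + j + 1)) * row s (p + j + 2) c := by
        simp only [mul_assoc]
    _ = row s p j * (s (p + j + 1) * s (p + j) * s (p + j + 1)) * row s (p + j + 2) c := by
        rw [← h2]; simp only [mul_assoc]
    _ = row s p j * (s (p + j) * s (p + j + 1)) * (s (p + j) * row s (p + j + 2) c) := by
        rw [← h4]; simp only [mul_assoc]
    _ = _ := by rw [← h3]; simp only [mul_assoc]

theorem XB_nat_right (hs : BraidRel m s) {o a b j : ℕ} (h : o + a + b ≤ m + 1)
    (hj : j + 1 < b) : s (o + a + j) * XB s o a b = XB s o a b * s (o + j) := by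
  induction a with
  | zero => rw [XB_zero, add_zero, one_mul, mul_one]
  | succ a ih =>
    rw [XB_succ, ← mul_assoc, ← add_assoc, row_nat hs (p := o + a) (by omega) hj, mul_assoc,
      ih (by omega), mul_assoc]

theorem col_nat (hs : BraidRel m s) {p a j : ℕ} (h : p + a ≤ m) (hj : j + 1 < a) :
    s (p + j) * XB s p a 1 = XB s p a 1 * s (p + 1 + j) := by
  obtain ⟨c, rfl⟩ : ∃ c, a = j + 2 + c := ⟨a - (j + 2), by omega⟩
  have h1 : XB s p (j + 2 + c) 1 = XB s (p + j + 2) c 1 * (s (p + j + 1) * s (p + j)) *
      XB s p j 1 := by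
    rw [XB_add_left, mul_assoc, add_assoc p j 2]
    congr 1
    change XB s p (j + 1 + 1) 1 = _
    rw [XB_succ, XB_succ]
    simp [row, mul_assoc, add_assoc]
  have h2 : XB s (p + j + 2) c 1 * s (p + j) = s (p + j) * XB s (p + j + 2) c 1 :=
    XB_conj fun i hi => (hs.comm _ _ (by omega) (by omega)).symm
  have h3 : XB s p j 1 * s (p + j + 1) = s (p + j + 1) * XB s p j 1 :=
    XB_conj fun i hi => hs.comm _ _ (by omega) (by omega)
  have h4 := hs.braid (p + j) (by omega)
  have h5 : p + 1 + j = p + j + 1 := by omega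
  rw [h5, h1]
  calc s (p + j) * (XB s (p + j + 2) c 1 * (s (p + j + 1) * s (p + j)) * XB s p j 1)
      = (s (p + j) * XB s (p + j + 2) c 1) * (s (p + j + 1) * s (p + j)) * XB s p j 1 := by
        simp only [mul_assoc]
    _ = XB s (p + j + 2) c 1 * (s (p + j) * s (p + j + 1) * s (p + j)) * XB s p j 1 := by
        rw [← h2]; simp only [mul_assoc]
    _ = XB s (p + j + 2) c 1 * (s (p + j + 1) * s (p + j)) * (s (p + j + 1) * XB s p j 1) := by
        rw [h4]; simp only [mul_assoc]
    _ = _ := by rw [← h3]; simp only [mul_assoc]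

theorem XB_nat_left (hs : BraidRel m s) {o a b j : ℕ} (h : o + a + b ≤ m + 1)
    (hj : j + 1 < a) : s (o + j) * XB s o a b = XB s o a b * s (o + b + j) := by
  induction b with
  | zero => rw [XB_zero_right, add_zero, one_mul, mul_one]
  | succ b ih =>
    rw [XB_add_right hs (b := b) (c := 1) (by omega), ← mul_assoc, ih (by omega), mul_assoc,
      col_nat hs (p := o + b) (by omega) hj, mul_assoc, add_assoc o b 1]

theorem JM_eq (s : ℕ → G) (n : ℕ) : JM s n = XB s 0 n 1 * XB s 0 1 n := by
  induction n with
  | zero => rw [JM, XB_zero, XB_zero_right, one_mul]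
  | succ n ih =>
    rw [JM, ih, XB_row, XB_row, XB_succ]
    simp [row, mul_assoc]

theorem JM_comm (hs : BraidRel m s) {n j : ℕ} (h : n ≤ m) (hj : j + 1 < n) :
    s j * JM s n = JM s n * s j := by
  have h1 := XB_nat_left hs (o := 0) (a := n) (b := 1) (j := j) (by omega) hj
  have h2 := XB_nat_right hs (o := 0) (a := 1) (b := n) (j := j) (by omega) hj
  rw [zero_add] at h1 h2
  rw [zero_add] at h1 h2
  rw [JM_eq, ← mul_assoc, h1, mul_assoc, h2, mul_assoc]

theorem braidRel_shift (hs : BraidRel m s) (a : ℕ) : BraidRel (m - a) fun j => s (a + j) where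
  comm j k hjk hk := hs.comm _ _ (by omega) (by omega)
  braid j hj := hs.braid (a + j) (by omega)

theorem XB_shift (s : ℕ → G) (a o b c : ℕ) :
    XB (fun j => s (a + j)) o b c = XB s (a + o) b c := by
  have h := XB_conj (s' := fun j => s (a + j)) (s := s) (Z := (1 : G)) (o' := o) (o := a + o)
    (a := b) (b := c) fun j _ => by
      rw [mul_one, one_mul, add_assoc]
  rwa [mul_one, one_mul] at h

theorem FT_add (hs : BraidRel m s) {a b : ℕ} (h : a + b ≤ m + 1) :
    FT s (a + b) = FT s a * (XB s 0 a b * XB s 0 b a) * FT (fun j => s (a + j)) b := by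
  induction b with
  | zero => rw [add_zero, XB_zero_right, XB_zero, FT, mul_one, mul_one, mul_one]
  | succ b ih =>
    have hab : a + b ≤ m := by omega
    -- commutations
    have h1 : FT (fun j => s (a + j)) b * JM s (a + b) = JM s (a + b) * FT (fun j => s (a + j)) b :=
      FT_conj fun j hj => JM_comm hs hab (by omega)
    have h2 : FT (fun j => s (a + j)) b * JM (fun j => s (a + j)) b =
        JM (fun j => s (a + j)) b * FT (fun j => s (a + j)) b :=
      FT_conj fun j hj => JM_comm (braidRel_shift hs a) (by omega) hj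
    -- decompositions
    have h3 : XB s 0 a (b + 1) = XB s 0 a b * XB s b a 1 := by
      have := XB_add_right hs (o := 0) (a := a) (b := b) (c := 1) (by omega)
      rwa [zero_add] at this
    have h4 : XB s 0 (b + 1) a = XB s b 1 a * XB s 0 b a := by
      have := XB_add_left s 0 b 1 a
      rwa [zero_add] at this
    have h5 : JM s (a + b) = XB s a b 1 * JM s a * XB s a 1 b := by
      have e1 := XB_add_left s 0 a b 1
      have e2 := XB_add_right hs (o := 0) (a := 1) (b := a) (c := b) (by omega)
      rw [zero_add] at e1 e2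
      rw [JM_eq, e1, e2, JM_eq]
      simp only [mul_assoc]
    have h6 : JM (fun j => s (a + j)) b = XB s a b 1 * XB s a 1 b := by
      rw [JM_eq, XB_shift, XB_shift, add_zero]
    have h7 : XB s 0 b (a + 1) = XB s 0 b a * XB s a b 1 := by
      have := XB_add_right hs (o := 0) (a := b) (b := a) (c := 1) (by omega)
      rwa [zero_add] at this
    have h8 : XB s b a 1 * XB s 0 b (a + 1) = XB s 0 b (a + 1) * XB s 0 a 1 := by
      refine XB_conj fun j hj => ?_
      have := XB_nat_right hs (o := 0) (a := b) (b := a + 1) (j := j) (by omega) (by omega)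
      rwa [zero_add] at this
    have h9 : XB s b 1 a * XB s 0 b (a + 1) = XB s 0 b (a + 1) * XB s 0 1 a := by
      refine XB_conj fun j hj => ?_
      have := XB_nat_right hs (o := 0) (a := b) (b := a + 1) (j := j) (by omega) (by omega)
      rwa [zero_add] at this
    have h10 : XB s 0 b a * JM s (a + b) =
        XB s b a 1 * (XB s b 1 a * XB s 0 b a) * JM (fun j => s (a + j)) b := by
      calc XB s 0 b a * JM s (a + b)
          = (XB s 0 b a * XB s a b 1) * JM s a * XB s a 1 b := by
            rw [h5]; simp only [mul_assoc]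
        _ = (XB s 0 b (a + 1) * XB s 0 a 1) * XB s 0 1 a * XB s a 1 b := by
            rw [← h7, JM_eq]; simp only [mul_assoc]
        _ = XB s b a 1 * (XB s 0 b (a + 1) * XB s 0 1 a) * XB s a 1 b := by
            rw [← h8]; simp only [mul_assoc]
        _ = XB s b a 1 * (XB s b 1 a * (XB s 0 b a * XB s a b 1)) * XB s a 1 b := by
            rw [← h9, h7]
        _ = _ := by rw [h6]; simp only [mul_assoc]
    calc FT s (a + (b + 1)) = FT s (a + b) * JM s (a + b) := rfl
      _ = FT s a * (XB s 0 a b * (XB s 0 b a * JM s (a + b))) * FT (fun j => s (a + j)) b := by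
          rw [ih (by omega), mul_assoc, h1]; simp only [mul_assoc]
      _ = FT s a * (XB s 0 a (b + 1) * XB s 0 (b + 1) a) *
          (JM (fun j => s (a + j)) b * FT (fun j => s (a + j)) b) := by
          rw [h10, h3, h4]; simp only [mul_assoc]
      _ = _ := by rw [← h2]; rfl

end Pool.Agent.Helper21.AEC
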