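import Mathlib
import Pool.Agent.Helper15.AllN.Eval
import Pool.Agent.Helper15.RT.PDefs

/-!
# The cyclic Pieri rule and the Jacobi-Trudi formula for alternants
-/

open Finset
open scoped Real

namespace Pool.Agent.Helper21.AEC

open Pool.Agent.Helper15.AllN Pool.Agent.Helper15.RT

open PowerSeries

/-- the alternant -/
noncomputable def Dt {N : ℕ} (ζ : Fin N → ℂ) (x : Fin N → ℕ) : ℂ :=
  Matrix.det (Matrix.of fun i j : Fin N => ζ j ^ x i)

/-- the geometric series -/
noncomputable def Gs' (z : ℂ) : ℂ⟦X⟧ := PowerSeries.mk fun n => z ^ n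

theorem E_mul_Gs' (z : ℂ) : (1 - C z * X) * Gs' z = 1 := by
  ext n
  rw [sub_mul, one_mul, map_sub, mul_assoc, coeff_C_mul, Gs', coeff_mk]
  rcases n with _ | n
  · simp
  · rw [mul_comm X, coeff_succ_mul_X, coeff_mk, pow_succ, coeff_one]
    simp
    ring

/-- the generating function of the complete homogeneous symmetric functions -/
noncomputable def HH {N : ℕ} (ζ : Fin N → ℂ) : ℂ⟦X⟧ := ∏ j, Gs' (ζ j)

theorem prod_E_mul_HH {N : ℕ} (ζ : Fin N → ℂ) : (∏ j, (1 - C (ζ j) * X)) * HH ζ = 1 := by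
  rw [HH, ← Finset.prod_mul_distrib]
  exact Finset.prod_eq_one fun j _ => E_mul_Gs' _

theorem coeff_prod_E_eq_zero {ι : Type*} [DecidableEq ι] (s : Finset ι) (a : ι → ℂ) (n : ℕ)
    (hn : s.card < n) : coeff n (∏ i ∈ s, (1 - C (a i) * X)) = 0 := by
  induction s using Finset.induction_on generalizing n with
  | empty =>
    rw [Finset.prod_empty, coeff_one, if_neg]
    rintro rfl
    simp at hn
  | insert i s hi ih =>
    rw [Finset.card_insert_of_notMem hi] at hn
    obtain ⟨m, rfl⟩ : ∃ m, n = m + 1 := ⟨n - 1, by omega⟩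
    rw [Finset.prod_insert hi, sub_mul, one_mul, map_sub, ih _ (by omega), mul_assoc, coeff_C_mul,
      mul_comm X, coeff_succ_mul_X, ih _ (by omega), mul_zero, sub_zero]

theorem Gs'_eq {N : ℕ} (ζ : Fin N → ℂ) (j : Fin N) :
    Gs' (ζ j) = (∏ i ∈ univ.erase j, (1 - C (ζ i) * X)) * HH ζ := by
  have h1 := prod_E_mul_HH ζ
  rw [← Finset.mul_prod_erase _ _ (Finset.mem_univ j)] at h1
  calc Gs' (ζ j) = Gs' (ζ j) * ((1 - C (ζ j) * X) *
        (∏ i ∈ univ.erase j, (1 - C (ζ i) * X)) * HH ζ) := by rw [h1, mul_one]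
    _ = ((1 - C (ζ j) * X) * Gs' (ζ j)) * ((∏ i ∈ univ.erase j, (1 - C (ζ i) * X)) * HH ζ) := by
        ring
    _ = _ := by rw [E_mul_Gs', one_mul]

/-- coefficients -/
noncomputable def cc {N : ℕ} (ζ : Fin N → ℂ) (b : ℕ) (j : Fin N) : ℂ :=
  coeff b (∏ i ∈ univ.erase j, (1 - C (ζ i) * X))

theorem pow_eq_sum {N : ℕ} (ζ : Fin N → ℂ) (j : Fin N) (x : ℕ) :
    ζ j ^ x = ∑ b : Fin N, (if (b : ℕ) ≤ x then coeff (x - b) (HH ζ) else 0) * cc ζ b j := by
  have h1 : ζ j ^ x = coeff x (Gs' (ζ j)) := by rw [Gs', coeff_mk]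
  have h0 : ∀ b, N ≤ b → cc ζ b j = 0 := by
    intro b hb
    refine coeff_prod_E_eq_zero _ _ _ ?_
    rw [Finset.card_erase_of_mem (Finset.mem_univ j), Finset.card_univ, Fintype.card_fin]
    have := j.pos
    omega
  rw [h1, Gs'_eq, coeff_mul,
    Finset.Nat.sum_antidiagonal_eq_sum_range_succ (fun a b => coeff a
      (∏ i ∈ univ.erase j, (1 - C (ζ i) * X)) * coeff b (HH ζ)) x,
    ← Finset.sum_range fun b => (if b ≤ x then coeff (x - b) (HH ζ) else 0) * cc ζ b j]
  have h2 : ∀ b ∈ range N, (if b ≤ x then coeff (x - b) (HH ζ) else 0) * cc ζ b j =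
      if b ≤ x then cc ζ b j * coeff (x - b) (HH ζ) else 0 := by
    intro b _
    split_ifs
    · ring
    · ring
  rw [Finset.sum_congr rfl h2, ← Finset.sum_filter]
  symm
  refine Finset.sum_subset ?_ ?_
  · intro b hb
    rw [Finset.mem_filter] at hb
    rw [Finset.mem_range]
    omega
  · intro b hb hb'
    rw [Finset.mem_filter, not_and, Finset.mem_range] at hb'
    rw [Finset.mem_range] at hb
    have h3 : N ≤ b := by
      by_contra hlt
      exact hb' (not_le.1 hlt) (by omega)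
    change cc ζ b j * _ = 0
    rw [h0 b h3, zero_mul]

/-- the matrix of complete homogeneous symmetric functions -/
noncomputable def Hx {N : ℕ} (ζ : Fin N → ℂ) (x : Fin N → ℕ) : Matrix (Fin N) (Fin N) ℂ :=
  Matrix.of fun a b => if (b : ℕ) ≤ x a then coeff (x a - b) (HH ζ) else 0

theorem Dt_eq {N : ℕ} (ζ : Fin N → ℂ) (x : Fin N → ℕ) :
    Dt ζ x = (Hx ζ x).det * (Matrix.of fun (b j : Fin N) => cc ζ b j).det := by
  rw [← Matrix.det_mul, Dt]
  congr 1
  ext i j
  rw [Matrix.mul_apply, Matrix.of_apply, pow_eq_sum]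
  rfl

theorem coeff_zero_HH {N : ℕ} (ζ : Fin N → ℂ) : coeff 0 (HH ζ) = 1 := by
  rw [HH, coeff_zero_eq_constantCoeff, map_prod]
  refine Finset.prod_eq_one fun j _ => ?_
  rw [← coeff_zero_eq_constantCoeff_apply, Gs', coeff_mk, pow_zero]

theorem det_Hx_vac {N : ℕ} (ζ : Fin N → ℂ) : (Hx ζ (vac N)).det = 1 := by
  rw [Matrix.det_of_isLowerTriangular]
  · refine Finset.prod_eq_one fun i _ => ?_
    simp [Hx, vac, coeff_zero_HH]
  · intro i j hij
    have : ¬ (j : ℕ) ≤ vac N i := by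
      rw [vac]
      exact not_le.2 hij
    simp only [Hx, Matrix.of_apply, if_neg this]

theorem det_Hx {N : ℕ} (ζ : Fin N → ℂ) (x : Fin N → ℕ) :
    (Hx ζ x).det = ∑ p : Equiv.Perm (Fin N), if ∀ a, (p a : ℕ) ≤ x a then
      ((Equiv.Perm.sign p : ℤ) : ℂ) * ∏ a, coeff (x a - (p a : ℕ)) (HH ζ) else 0 := by
  rw [← Matrix.det_transpose, Matrix.det_apply]
  refine Finset.sum_congr rfl fun p _ => ?_
  have h1 : ∏ i, (Hx ζ x).transpose (p i) i = if ∀ a, (p a : ℕ) ≤ x a then
      ∏ a, coeff (x a - (p a : ℕ)) (HH ζ) else 0 := by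
    simp only [Matrix.transpose_apply, Hx, Matrix.of_apply]
    rw [Fintype.prod_ite_zero]
    congr
  rw [h1, Units.smul_def, zsmul_eq_mul]
  split_ifs
  · rfl
  · rw [mul_zero]

/-- Jacobi-Trudi -/
theorem jt {N : ℕ} (ζ : Fin N → ℂ) (x : Fin N → ℕ) :
    (∑ p : Equiv.Perm (Fin N), if ∀ a, (p a : ℕ) ≤ x a then
      ((Equiv.Perm.sign p : ℤ) : ℂ) * ∏ a, coeff (x a - (p a : ℕ)) (HH ζ) else 0) *
        Dt ζ (vac N) = Dt ζ x := by
  rw [← det_Hx, Dt_eq ζ x, Dt_eq ζ (vac N), det_Hx_vac, one_mul]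

/-- telescoping -/
theorem telescope (z : ℂ) (l g : ℕ) :
    (1 - C z * X) * ∑ u ∈ range g, X ^ u * C (z ^ (l + u)) =
      C (z ^ l) - X ^ g * C (z ^ (l + g)) := by
  induction g with
  | zero => simp
  | succ g ih =>
    rw [Finset.sum_range_succ, mul_add, ih]
    have h1 : z ^ (l + (g + 1)) = z * z ^ (l + g) := by rw [← add_assoc, pow_succ, mul_comm]
    rw [h1, map_mul]
    ring

section cyc

variable {m : ℕ}

/-- the cyclic successor -/
def nx (i : Fin (m + 1)) : Fin (m + 1) := if h : (i : ℕ) < m then ⟨i + 1, by omega⟩ else 0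

/-- the gaps -/
def gp (r : ℕ) (l : Fin (m + 1) → ℕ) (i : Fin (m + 1)) : ℕ :=
  if (i : ℕ) < m then l (nx i) - l i else l 0 + r - l i

/-- the weights -/
noncomputable def wt (κ : ℂ) (i : Fin (m + 1)) : ℂ := if (i : ℕ) < m then 1 else κ

theorem nx_of_lt {i : Fin (m + 1)} (h : (i : ℕ) < m) : nx i = ⟨i + 1, by omega⟩ := dif_pos h

theorem nx_of_not_lt {i : Fin (m + 1)} (h : ¬ (i : ℕ) < m) : nx i = 0 := dif_neg h

theorem pow_gap {ζ : Fin (m + 1) → ℂ} {κ : ℂ} {r : ℕ} (hζ : ∀ j, ζ j ^ r = κ)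
    {l : Fin (m + 1) → ℕ} (hl : alc r l) (i j : Fin (m + 1)) :
    ζ j ^ (l i + gp r l i) = wt κ i * ζ j ^ l (nx i) := by
  rw [gp, wt]
  split_ifs with h
  · have h1 : l i ≤ l (nx i) := by
      apply hl.1.monotone
      rw [nx_of_lt h, Fin.le_def]
      simp
    rw [one_mul, Nat.add_sub_cancel' h1]
  · have h1 : l i ≤ l 0 + r := (hl.2 i 0).le
    rw [nx_of_not_lt h, Nat.add_sub_cancel' h1, pow_add, hζ, mul_comm]

/-- the bidiagonal matrix -/
noncomputable def BB (κ : ℂ) (r : ℕ) (l : Fin (m + 1) → ℕ) :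
    Matrix (Fin (m + 1)) (Fin (m + 1)) ℂ⟦X⟧ :=
  Matrix.of fun i k => (if k = i then 1 else 0) -
    (if k = nx i then X ^ gp r l i * C (wt κ i) else 0)

/-- the unitriangular matrix -/
noncomputable def TT (l : Fin (m + 1) → ℕ) : Matrix (Fin (m + 1)) (Fin (m + 1)) ℂ⟦X⟧ :=
  Matrix.of fun i j => if i ≤ j then X ^ (l j - l i) else 0

theorem BB_mul (κ : ℂ) (r : ℕ) (l : Fin (m + 1) → ℕ)
    (A : Matrix (Fin (m + 1)) (Fin (m + 1)) ℂ⟦X⟧) (i j : Fin (m + 1)) :
    (BB κ r l * A) i j = A i j - X ^ gp r l i * C (wt κ i) * A (nx i) j := by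
  rw [Matrix.mul_apply]
  simp only [BB, Matrix.of_apply, sub_mul, ite_mul, one_mul, zero_mul, Finset.sum_sub_distrib,
    Finset.sum_ite_eq', Finset.mem_univ, if_true]

theorem det_TT (l : Fin (m + 1) → ℕ) : (TT l).det = 1 := by
  rw [Matrix.det_of_isUpperTriangular]
  · refine Finset.prod_eq_one fun i _ => ?_
    simp [TT]
  · intro i j hij
    have hij' : j < i := hij
    simp only [TT, Matrix.of_apply, if_neg (not_le.2 hij')]

theorem det_BB (κ : ℂ) {r : ℕ} {l : Fin (m + 1) → ℕ} (hl : alc r l) :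
    (BB κ r l).det = 1 - C κ * X ^ r := by
  have h1 : (BB κ r l * TT l).det = 1 - C κ * X ^ r := by
    rw [Matrix.det_of_isLowerTriangular, Fin.prod_univ_castSucc]
    · have h2 : ∏ i : Fin m, (BB κ r l * TT l) i.castSucc i.castSucc = 1 := by
        refine Finset.prod_eq_one fun i _ => ?_
        have h3 : ((i.castSucc : Fin (m + 1)) : ℕ) < m := i.2
        have h4 : ¬ nx i.castSucc ≤ i.castSucc := by
          rw [nx_of_lt h3, Fin.le_def]
          simp
        rw [BB_mul, TT, Matrix.of_apply, Matrix.of_apply, if_pos le_rfl, if_neg h4, mul_zero,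
          sub_zero, Nat.sub_self, pow_zero]
      rw [h2, one_mul]
      have h3 : ¬ ((Fin.last m : Fin (m + 1)) : ℕ) < m := by simp
      rw [BB_mul, TT, Matrix.of_apply, Matrix.of_apply, if_pos le_rfl, nx_of_not_lt h3,
        if_pos (Fin.zero_le _), Nat.sub_self, pow_zero, gp, wt, if_neg h3, if_neg h3]
      have h4 : l 0 + r - l (Fin.last m) + (l (Fin.last m) - l 0) = r := by
        have h5 := hl.2 (Fin.last m) 0
        have h6 : l 0 ≤ l (Fin.last m) := hl.1.monotone (Fin.zero_le _)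
        omega
      rw [mul_comm (X ^ _) (C κ), mul_assoc, ← pow_add, h4]
    · intro i j hij
      have hij' : i < j := hij
      have h3 : (i : ℕ) < m := by
        have := Fin.lt_def.1 hij'
        have := j.2
        omega
      have h4 : nx i ≤ j := by
        rw [nx_of_lt h3, Fin.le_def]
        exact hij'
      rw [BB_mul, TT, Matrix.of_apply, Matrix.of_apply, if_pos hij'.le, if_pos h4, gp, wt,
        if_pos h3, if_pos h3, map_one, mul_one, ← pow_add]
      have h5 : l i ≤ l (nx i) := by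
        apply hl.1.monotone
        rw [nx_of_lt h3, Fin.le_def]
        simp
      have h6 : l (nx i) ≤ l j := hl.1.monotone h4
      have h7 : l (nx i) - l i + (l j - l (nx i)) = l j - l i := by omega
      rw [h7, sub_self]
  rwa [Matrix.det_mul, det_TT, mul_one] at h1

/-- the generating matrix of the strips -/
noncomputable def MM (ζ : Fin (m + 1) → ℂ) (r : ℕ) (l : Fin (m + 1) → ℕ) :
    Matrix (Fin (m + 1)) (Fin (m + 1)) ℂ⟦X⟧ :=
  Matrix.of fun i j => ∑ u ∈ range (gp r l i), X ^ u * C (ζ j ^ (l i + u))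

theorem det_MM_mul {ζ : Fin (m + 1) → ℂ} {κ : ℂ} {r : ℕ} (hζ : ∀ j, ζ j ^ r = κ)
    {l : Fin (m + 1) → ℕ} (hl : alc r l) :
    (∏ j, (1 - C (ζ j) * X)) * (MM ζ r l).det = (1 - C κ * X ^ r) * C (Dt ζ l) := by
  rw [← Matrix.det_mul_row, ← det_BB κ hl, Dt, RingHom.map_det, ← Matrix.det_mul]
  congr 1
  ext1 i j
  rw [BB_mul, Matrix.of_apply, MM, Matrix.of_apply, telescope, pow_gap hζ hl i j, map_mul,
    RingHom.mapMatrix_apply, Matrix.map_apply, Matrix.map_apply, Matrix.of_apply,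
    Matrix.of_apply, mul_assoc]

theorem det_MM {ζ : Fin (m + 1) → ℂ} {κ : ℂ} {r : ℕ} (hζ : ∀ j, ζ j ^ r = κ)
    {l : Fin (m + 1) → ℕ} (hl : alc r l) :
    (MM ζ r l).det = C (Dt ζ l) * HH ζ - (C (κ * Dt ζ l) * HH ζ) * X ^ r := by
  have h1 := det_MM_mul hζ hl
  have h2 := prod_E_mul_HH ζ
  calc (MM ζ r l).det = ((∏ j, (1 - C (ζ j) * X)) * HH ζ) * (MM ζ r l).det := by
        rw [h2, one_mul]
    _ = HH ζ * ((∏ j, (1 - C (ζ j) * X)) * (MM ζ r l).det) := by ring
    _ = _ := by rw [h1, map_mul]; ring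

theorem coeff_det_MM {ζ : Fin (m + 1) → ℂ} {κ : ℂ} {r n : ℕ} (hζ : ∀ j, ζ j ^ r = κ)
    {l : Fin (m + 1) → ℕ} (hl : alc r l) (hn : n < r) :
    coeff n (MM ζ r l).det = coeff n (HH ζ) * Dt ζ l := by
  rw [det_MM hζ hl, map_sub, coeff_mul_X_pow', if_neg (by omega), sub_zero, coeff_C_mul, mul_comm]

theorem coeff_det_MM' (ζ : Fin (m + 1) → ℂ) (r n : ℕ) (l : Fin (m + 1) → ℕ) :
    coeff n (MM ζ r l).det = ∑ u ∈ (Fintype.piFinset fun i => range (gp r l i)).filter
      (fun u => ∑ i, u i = n), Dt ζ (fun i => l i + u i) := by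
  have h1 : (MM ζ r l).det = ∑ u ∈ Fintype.piFinset fun i => range (gp r l i),
      C (Dt ζ fun i => l i + u i) * X ^ (∑ i, u i) := by
    have h2 := (Matrix.detRowAlternating (n := Fin (m + 1))
      (R := ℂ⟦X⟧)).toMultilinearMap.map_sum_finset
        (fun i (u : ℕ) => fun j : Fin (m + 1) => X ^ u * C (ζ j ^ (l i + u)))
        (fun i => range (gp r l i))
    have h3 : (MM ζ r l).det = (Matrix.detRowAlternating (n := Fin (m + 1))
      (R := ℂ⟦X⟧)).toMultilinearMap (fun i => ∑ u ∈ range (gp r l i),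
        fun j : Fin (m + 1) => X ^ u * C (ζ j ^ (l i + u))) := by
      change Matrix.det _ = Matrix.det _
      congr 1
      ext1 i j
      rw [Finset.sum_apply]
      rfl
    rw [h3, h2]
    refine Finset.sum_congr rfl fun u _ => ?_
    have h4 := Matrix.det_mul_column (fun i : Fin (m + 1) => (X : ℂ⟦X⟧) ^ u i)
      (Matrix.of fun i j : Fin (m + 1) => (C (ζ j ^ (l i + u i)) : ℂ⟦X⟧))
    rw [Finset.prod_pow_eq_pow_sum] at h4
    rw [Dt, RingHom.map_det, mul_comm]
    exact h4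
  rw [h1, map_sum, Finset.sum_filter]
  refine Finset.sum_congr rfl fun u _ => ?_
  rw [coeff_C_mul_X_pow]
  simp only [eq_comm]

theorem pieri {ζ : Fin (m + 1) → ℂ} {κ : ℂ} {r n : ℕ} (hζ : ∀ j, ζ j ^ r = κ)
    {l : Fin (m + 1) → ℕ} (hl : alc r l) (hn : n < r) :
    ∑ l' ∈ strips (m + 1) r n l, Dt ζ l' = coeff n (HH ζ) * Dt ζ l := by
  rw [← coeff_det_MM hζ hl hn, coeff_det_MM']
  have hmono := hl.1.monotone
  refine Finset.sum_nbij' (fun l' i => l' i - l i) (fun u i => l i + u i) ?_ ?_ ?_ ?_ ?_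
  · intro l' h
    rw [strips, Finset.mem_filter, Fintype.mem_piFinset] at h
    obtain ⟨h1, h2, h3, h4⟩ := h
    rw [Finset.mem_filter, Fintype.mem_piFinset]
    refine ⟨fun i => ?_, ?_⟩
    · rw [Finset.mem_range, gp]
      have h5 := h1 i
      rw [Finset.mem_Ico] at h5
      split_ifs with hi
      · have h6 : i < nx i := by
          rw [nx_of_lt hi, Fin.lt_def]
          simp
        have h7 := h2 i _ h6
        omega
      · have h7 := h3 i 0
        omega
    · have h5 : ∀ i, l' i - l i + l i = l' i := fun i => by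
        have h5 := h1 i
        rw [Finset.mem_Ico] at h5
        omega
      have h6 : ∑ i, (l' i - l i) + ∑ i, l i = ∑ i, l' i := by
        rw [← Finset.sum_add_distrib]
        exact Finset.sum_congr rfl fun i _ => h5 i
      change ∑ i, (l' i - l i) = n
      omega
  · intro u h
    rw [Finset.mem_filter, Fintype.mem_piFinset] at h
    obtain ⟨h1, h2⟩ := h
    have h3 : ∀ i : Fin (m + 1), (i : ℕ) < m → l i + u i < l (nx i) := by
      intro i hi
      have h4 := h1 i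
      rw [Finset.mem_range, gp, if_pos hi] at h4
      omega
    have h3' : ∀ i : Fin (m + 1), l i + u i < l 0 + r := by
      intro i
      by_cases hi : (i : ℕ) < m
      · exact (h3 i hi).trans (hl.2 _ _)
      · have h4 := h1 i
        rw [Finset.mem_range, gp, if_neg hi] at h4
        omega
    rw [strips, Finset.mem_filter, Fintype.mem_piFinset]
    refine ⟨fun i => ?_, fun i j hij => ?_, fun i j => ?_, ?_⟩
    · rw [Finset.mem_Ico]
      have h5 := h3' i
      have h6 := hmono (Fin.zero_le i)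
      omega
    · have hi : (i : ℕ) < m := by
        have := Fin.lt_def.1 hij
        have := j.2
        omega
      refine (h3 i hi).trans_le (hmono ?_)
      rw [nx_of_lt hi, Fin.le_def]
      exact hij
    · have h5 := h3' i
      have h6 := hmono (Fin.zero_le j)
      change l i + u i < l j + r
      omega
    · rw [Finset.sum_add_distrib, h2]
  · intro l' h
    rw [strips, Finset.mem_filter, Fintype.mem_piFinset] at h
    funext i
    have h5 := h.1 i
    rw [Finset.mem_Ico] at h5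
    change l i + (l' i - l i) = l' i
    omega
  · intro u _
    funext i
    change l i + u i - l i = u i
    omega
  · intro l' h
    rw [strips, Finset.mem_filter, Fintype.mem_piFinset] at h
    congr 1
    funext i
    have h5 := h.1 i
    rw [Finset.mem_Ico] at h5
    change l' i = l i + (l' i - l i)
    omega

end cyc

/-- the numbers `ζ_j` -/
noncomputable def zet (N r : ℕ) (y : Fin N → ℕ) (j : Fin N) : ℂ :=
  Complex.exp ((((2 * π / r) * ((∑ i, (y i : ℝ)) / N) : ℝ) : ℂ) * Complex.I) * om r ^ y j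

theorem Smat_Dt (N r : ℕ) (x y : Fin N → ℕ) : Smat N r x y =
    Complex.I ^ (N * (N - 1) / 2) / (nrm N r : ℂ) * Dt (zet N r y) x := by
  rw [Smat_eq, Dt, D]
  congr 1
  have h1 : (Matrix.of fun i j : Fin N => zet N r y j ^ x i) = Matrix.of fun i j : Fin N =>
      (Complex.exp ((((2 * π / r) * ((∑ i, (y i : ℝ)) / N) : ℝ) : ℂ) * Complex.I)) ^ x i *
        (Matrix.of fun i j : Fin N => om r ^ (x i * y j)) i j := by
    ext i j
    rw [Matrix.of_apply, Matrix.of_apply, Matrix.of_apply, zet, mul_pow, ← pow_mul,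
      mul_comm (y j)]
  rw [h1, Matrix.det_mul_column, Finset.prod_pow_eq_pow_sum, ← Complex.exp_nat_mul]
  congr 2
  push_cast
  ring

theorem pieri_jt {N r : ℕ} (hN : 0 < N) (hr : 0 < r) (y : Fin N → ℕ) : ∃ h : ℕ → ℂ,
    (∀ n < r, ∀ l : Fin N → ℕ, alc r l →
      ∑ l' ∈ strips N r n l, Smat N r l' y = h n * Smat N r l y) ∧
    (∀ x : Fin N → ℕ, (∑ p : Equiv.Perm (Fin N), if ∀ a, (p a : ℕ) ≤ x a then
      ((Equiv.Perm.sign p : ℤ) : ℂ) * ∏ a, h (x a - (p a : ℕ)) else 0) * Smat N r (vac N) y =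
        Smat N r x y) := by
  obtain ⟨m, rfl⟩ : ∃ m, N = m + 1 := ⟨N - 1, by omega⟩
  refine ⟨fun n => coeff n (HH (zet (m + 1) r y)), fun n hn l hl => ?_, fun x => ?_⟩
  · have hζ : ∀ j, zet (m + 1) r y j ^ r =
        Complex.exp ((((2 * π / r) * ((∑ i, (y i : ℝ)) / (m + 1 : ℕ)) : ℝ) : ℂ) *
          Complex.I) ^ r := by
      intro j
      rw [zet, mul_pow, ← pow_mul, mul_comm (y j), pow_mul, om_pow_self hr, one_pow, mul_one]
    simp only [Smat_Dt]
    rw [← Finset.mul_sum, pieri hζ hl hn]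
    ring
  · rw [Smat_Dt, Smat_Dt, mul_left_comm, jt]

end Pool.Agent.Helper21.AEC
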