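import Mathlib

/-!
# Sums over the quotient of `ℤ^N` by the lattice generated by `(1,...,1)` and `r` times the roots
-/

open Finset

namespace Pool.Agent.Helper21.AEC

/-- the lattice generated by `(1, ..., 1)` and `r` times the root lattice -/
def latL (N r : ℕ) : AddSubgroup (Fin N → ℤ) where
  carrier := {v | ∃ (c : ℤ) (l : Fin N → ℤ), ∑ i, l i = 0 ∧ ∀ i, v i = c + r * l i}
  zero_mem' := ⟨0, 0, by simp, by simp⟩
  add_mem' := by
    rintro a b ⟨c, l, h1, h2⟩ ⟨c', l', h1', h2'⟩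
    refine ⟨c + c', l + l', by simp [Finset.sum_add_distrib, h1, h1'], fun i => ?_⟩
    simp only [Pi.add_apply, h2, h2']
    ring
  neg_mem' := by
    rintro a ⟨c, l, h1, h2⟩
    refine ⟨-c, -l, by simp [h1], fun i => ?_⟩
    simp only [Pi.neg_apply, h2]
    ring

theorem mem_latL {N r : ℕ} {v : Fin N → ℤ} :
    v ∈ latL N r ↔ ∃ (c : ℤ) (l : Fin N → ℤ), ∑ i, l i = 0 ∧ ∀ i, v i = c + r * l i := Iff.rfl

/-- the quotient group -/
abbrev Qg (N r : ℕ) : Type := (Fin N → ℤ) ⧸ latL N r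

/-- explicit representatives -/
def rep (n r : ℕ) (p : (Fin n → Fin r) × Fin (n + 1)) : Qg (n + 1) r :=
  QuotientAddGroup.mk
    (Fin.cons ((r : ℤ) * ((p.2 : ℕ) : ℤ)) (fun j => (((p.1 j : Fin r) : ℕ) : ℤ)) : Fin (n + 1) → ℤ)

theorem rep_injective (n r : ℕ) : Function.Injective (rep n r) := by
  rintro ⟨a, t⟩ ⟨a', t'⟩ h
  rw [rep, rep, QuotientAddGroup.eq, mem_latL] at h
  obtain ⟨c, l, h1, h2⟩ := h
  have h0 := h2 0
  simp only [Pi.add_apply, Pi.neg_apply, Fin.cons_zero] at h0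
  have hj : ∀ j : Fin n, -(((a j : Fin r) : ℕ) : ℤ) + (((a' j : Fin r) : ℕ) : ℤ) =
      c + r * l j.succ := by
    intro j
    have := h2 j.succ
    simpa only [Pi.add_apply, Pi.neg_apply, Fin.cons_succ] using this
  set κ : ℤ := (t' : ℕ) - (t : ℕ) - l 0 with hκ
  have hc : c = r * κ := by rw [hκ]; linarith
  have hl : ∀ j : Fin n, κ + l j.succ = 0 := by
    intro j
    have h3 := hj j
    rw [hc, ← mul_add] at h3
    have ha := (a j).isLt
    have ha' := (a' j).isLt
    have hr : (0 : ℤ) < r := by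
      have : 0 < r := by omega
      exact_mod_cast this
    by_contra hne
    have h4 : (r : ℤ) ≤ |(r : ℤ) * (κ + l j.succ)| := by
      rw [abs_mul, abs_of_pos hr]
      have : 1 ≤ |κ + l j.succ| := Int.one_le_abs hne
      nlinarith
    rw [← h3, le_abs] at h4
    omega
  have ha : a = a' := by
    funext j
    have h3 := hj j
    rw [hc, ← mul_add, hl j, mul_zero] at h3
    apply Fin.ext
    omega
  have hsum : l 0 = n * κ := by
    rw [Fin.sum_univ_succ] at h1
    have h5 : ∑ j : Fin n, l j.succ = ∑ _j : Fin n, (-κ) :=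
      Finset.sum_congr rfl fun j _ => by linarith [hl j]
    rw [h5, Finset.sum_const, Finset.card_univ, Fintype.card_fin, nsmul_eq_mul] at h1
    linarith
  have ht : ((t' : ℕ) : ℤ) - (t : ℕ) = (n + 1) * κ := by
    have : κ = (t' : ℕ) - (t : ℕ) - l 0 := hκ
    rw [hsum] at this
    linarith
  have hκ0 : κ = 0 := by
    by_contra hne
    have h6 : ((n : ℤ) + 1) ≤ |((n : ℤ) + 1) * κ| := by
      rw [abs_mul, abs_of_pos (by positivity)]
      have : 1 ≤ |κ| := Int.one_le_abs hne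
      nlinarith
    rw [← ht, le_abs] at h6
    have := t.isLt
    have := t'.isLt
    omega
  rw [hκ0, mul_zero] at ht
  have htt : t = t' := Fin.ext (by omega)
  rw [ha, htt]

theorem rep_surjective (n r : ℕ) [NeZero r] : Function.Surjective (rep n r) := by
  intro q
  obtain ⟨v, rfl⟩ := QuotientAddGroup.mk_surjective q
  have hr : (0 : ℤ) < r := by exact_mod_cast Nat.pos_of_ne_zero (NeZero.ne r)
  set μ : Fin n → ℤ := fun j => (v j.succ - v 0) / r with hμ
  set m : ℤ := ∑ j, μ j with hm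
  have hn : (0 : ℤ) < (n : ℤ) + 1 := by positivity
  have h1 : ∀ j : Fin n, ((v j.succ - v 0) % r).toNat < r := by
    intro j
    have h2 := Int.emod_nonneg (v j.succ - v 0) hr.ne'
    have h3 := Int.emod_lt_of_pos (v j.succ - v 0) hr
    omega
  have h1' : (m % (n + 1)).toNat < n + 1 := by
    have h2 := Int.emod_nonneg m hn.ne'
    have h3 := Int.emod_lt_of_pos m hn
    omega
  refine ⟨⟨fun j => ⟨_, h1 j⟩, ⟨_, h1'⟩⟩, ?_⟩
  rw [rep, QuotientAddGroup.eq, mem_latL]
  set κ : ℤ := m / (n + 1) with hκ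
  have e1 : (((m % (n + 1)).toNat : ℕ) : ℤ) = m % (n + 1) :=
    Int.toNat_of_nonneg (Int.emod_nonneg m hn.ne')
  have e2 : ∀ j : Fin n, (((((v j.succ - v 0) % r).toNat : ℕ)) : ℤ) = (v j.succ - v 0) % r :=
    fun j => Int.toNat_of_nonneg (Int.emod_nonneg _ hr.ne')
  have e3 : m % (n + 1) = m - (n + 1) * κ := by
    rw [hκ]
    have := Int.emod_add_mul_ediv m (n + 1)
    linarith
  have e4 : ∀ j : Fin n, (v j.succ - v 0) % r = (v j.succ - v 0) - r * μ j := by
    intro j
    rw [hμ]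
    have := Int.emod_add_mul_ediv (v j.succ - v 0) r
    simp only
    linarith
  refine ⟨v 0 + r * κ, Fin.cons (-(m % (n + 1)) - κ) (fun j => μ j - κ), ?_, ?_⟩
  · rw [Fin.sum_univ_succ]
    simp only [Fin.cons_zero, Fin.cons_succ, Finset.sum_sub_distrib, Finset.sum_const,
      Finset.card_univ, Fintype.card_fin, nsmul_eq_mul]
    rw [← hm, e3]
    ring
  · intro i
    refine Fin.cases ?_ (fun j => ?_) i
    · simp only [Pi.add_apply, Pi.neg_apply, Fin.cons_zero]
      rw [e1]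
      ring
    · simp only [Pi.add_apply, Pi.neg_apply, Fin.cons_succ]
      rw [e2, e4]
      ring

theorem card_Qg (n r : ℕ) [NeZero r] : Nat.card (Qg (n + 1) r) = (n + 1) * r ^ n := by
  rw [← Nat.card_congr (Equiv.ofBijective (rep n r) ⟨rep_injective n r, rep_surjective n r⟩)]
  simp [Nat.card_eq_fintype_card, mul_comm]

theorem card_Qg' (N r : ℕ) [NeZero N] [NeZero r] : Nat.card (Qg N r) = N * r ^ (N - 1) := by
  obtain ⟨n, rfl⟩ : ∃ n, N = n + 1 := ⟨N - 1, by have := NeZero.ne N; omega⟩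
  exact card_Qg n r

instance (N r : ℕ) [NeZero N] [NeZero r] : Finite (Qg N r) := by
  apply Nat.finite_of_card_ne_zero
  rw [card_Qg']
  exact mul_ne_zero (NeZero.ne N) (pow_ne_zero _ (NeZero.ne r))

noncomputable instance (N r : ℕ) [NeZero N] [NeZero r] : Fintype (Qg N r) := Fintype.ofFinite _

section qsum

variable {N r : ℕ} [NeZero N] [NeZero r]

/-- invariance under the lattice -/
def Inv (N r : ℕ) (F : (Fin N → ℤ) → ℂ) : Prop := ∀ v, ∀ l ∈ latL N r, F (v + l) = F v

omit [NeZero N] [NeZero r] in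
theorem Inv.eq_of_mk_eq {F : (Fin N → ℤ) → ℂ} (hF : Inv N r F) {u v : Fin N → ℤ}
    (h : (QuotientAddGroup.mk u : Qg N r) = QuotientAddGroup.mk v) : F u = F v := by
  rw [QuotientAddGroup.eq] at h
  have := hF u _ h
  rw [← this]
  congr 1
  abel

variable (N r) in
/-- the sum of a function over the quotient group -/
noncomputable def qsum (F : (Fin N → ℤ) → ℂ) : ℂ := ∑ q : Qg N r, F q.out

omit [NeZero N] [NeZero r] in
theorem mk_out (q : Qg N r) : (QuotientAddGroup.mk q.out : Qg N r) = q := Quotient.out_eq' q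

theorem qsum_mul_left (c : ℂ) (F : (Fin N → ℤ) → ℂ) :
    qsum N r (fun v => c * F v) = c * qsum N r F := by
  rw [qsum, qsum, Finset.mul_sum]

theorem qsum_sum {ι : Type*} (s : Finset ι) (F : ι → (Fin N → ℤ) → ℂ) :
    qsum N r (fun v => ∑ i ∈ s, F i v) = ∑ i ∈ s, qsum N r (F i) := by
  simp only [qsum]
  rw [Finset.sum_comm]

theorem qsum_shift {F : (Fin N → ℤ) → ℂ} (hF : Inv N r F) (b : Fin N → ℤ) :
    qsum N r (fun v => F (v + b)) = qsum N r F := by
  rw [qsum, qsum]
  refine Eq.trans ?_ (Equiv.sum_comp (Equiv.addRight (QuotientAddGroup.mk b : Qg N r))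
    fun q => F q.out)
  refine Finset.sum_congr rfl fun q _ => ?_
  apply hF.eq_of_mk_eq
  rw [mk_out, QuotientAddGroup.mk_add, mk_out, Equiv.coe_addRight]

theorem qsum_congr_equiv {F : (Fin N → ℤ) → ℂ} (hF : Inv N r F)
    (e : (Fin N → ℤ) ≃+ (Fin N → ℤ)) (he : (latL N r).map (e : (Fin N → ℤ) →+ (Fin N → ℤ)) =
      latL N r) :
    qsum N r (fun v => F (e v)) = qsum N r F := by
  rw [qsum, qsum]
  refine Eq.trans ?_ (Equiv.sum_comp (QuotientAddGroup.congr (latL N r) (latL N r) e he).toEquiv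
    fun q => F q.out)
  refine Finset.sum_congr rfl fun q _ => ?_
  apply hF.eq_of_mk_eq
  rw [mk_out]
  conv_rhs => rw [← mk_out q]
  rfl

/-- the action of a permutation on the coordinates -/
def permE (N : ℕ) (σ : Equiv.Perm (Fin N)) : (Fin N → ℤ) ≃+ (Fin N → ℤ) where
  toFun v := fun i => v (σ i)
  invFun v := fun i => v (σ.symm i)
  left_inv v := by funext i; simp
  right_inv v := by funext i; simp
  map_add' _ _ := rfl

omit [NeZero N] [NeZero r] in
theorem comp_mem_latL {σ : Equiv.Perm (Fin N)} {v : Fin N → ℤ} (h : v ∈ latL N r) :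
    (fun i => v (σ i)) ∈ latL N r := by
  obtain ⟨c, l, h1, h2⟩ := h
  exact ⟨c, fun i => l (σ i), by rw [Equiv.sum_comp σ l, h1], fun i => h2 _⟩

omit [NeZero N] [NeZero r] in
theorem map_permE (σ : Equiv.Perm (Fin N)) :
    (latL N r).map (permE N σ : (Fin N → ℤ) →+ (Fin N → ℤ)) = latL N r := by
  ext v
  constructor
  · rintro ⟨u, hu, rfl⟩
    exact comp_mem_latL hu
  · intro hv
    refine ⟨fun i => v (σ.symm i), comp_mem_latL (σ := σ.symm) hv, ?_⟩
    funext i
    simp [permE]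

theorem qsum_perm {F : (Fin N → ℤ) → ℂ} (hF : Inv N r F) (σ : Equiv.Perm (Fin N)) :
    qsum N r (fun v => F (fun i => v (σ i))) = qsum N r F :=
  qsum_congr_equiv hF (permE N σ) (map_permE σ)

/-- orthogonality of characters -/
theorem qsum_char {χ : (Fin N → ℤ) → ℂ} (hχ : Inv N r χ) (hm : ∀ u v, χ (u + v) = χ u * χ v)
    {b : Fin N → ℤ} (hb : χ b ≠ 1) : qsum N r χ = 0 := by
  have h1 := qsum_shift hχ b
  have h2 : (fun v => χ (v + b)) = fun v => χ b * χ v := by
    funext v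
    rw [hm, mul_comm]
  rw [h2, qsum_mul_left] at h1
  have h3 : (χ b - 1) * qsum N r χ = 0 := by rw [sub_mul, h1, one_mul, sub_self]
  exact (mul_eq_zero.1 h3).resolve_left (sub_ne_zero.2 hb)

theorem qsum_one : qsum N r (fun _ => 1) = (Nat.card (Qg N r) : ℂ) := by
  rw [qsum, Finset.sum_const, Finset.card_univ, Nat.card_eq_fintype_card]
  simp

end qsum

end Pool.Agent.Helper21.AEC
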