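import Mathlib
import Pool.Agent.Helper15.RT.SDefs
import Pool.Agent.Helper21.AEC.Lattice

/-!
# Sums over the colours as sums over the quotient group
-/

open Finset

namespace Pool.Agent.Helper21.AEC

open Pool.Agent.Helper15.AllN

variable {N r : ℕ}

theorem sub_mem_latL_dvd {u v : Fin N → ℤ} (h : u - v ∈ latL N r) (i j : Fin N) :
    ((r : ℤ) ∣ u i - u j) ↔ ((r : ℤ) ∣ v i - v j) := by
  obtain ⟨c, l, -, h2⟩ := h
  have hi := h2 i
  have hj := h2 j
  simp only [Pi.sub_apply] at hi hj
  have : u i - u j = (v i - v j) + r * (l i - l j) := by linarith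
  rw [this, dvd_add_left (dvd_mul_right _ _)]

/-- one step towards the alcove -/
theorem move_mem {u : Fin N → ℤ} (i j : Fin N) (hij : i ≠ j) :
    (fun k => u k + ((if k = i then -(r : ℤ) else 0) + (if k = j then (r : ℤ) else 0))) - u ∈
      latL N r := by
  refine ⟨0, fun k => (if k = i then -1 else 0) + (if k = j then 1 else 0), ?_, fun k => ?_⟩
  · rw [Finset.sum_add_distrib]
    simp
  · simp only [Pi.sub_apply]
    split_ifs <;> ring

theorem exists_min (v : Fin N → ℤ) (hr : 0 < r) :
    ∃ u, u - v ∈ latL N r ∧ ∀ i j, i ≠ j → u i - u j ≤ r := by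
  classical
  let M : (Fin N → ℤ) → ℤ := fun u => ∑ k, (N * u k - ∑ i, u i) ^ 2
  have hM : ∀ u, 0 ≤ M u := fun u => Finset.sum_nonneg fun k _ => sq_nonneg _
  obtain ⟨u, hu, hmin⟩ := WellFounded.has_min (measure fun u => (M u).toNat).wf
    {u | u - v ∈ latL N r} ⟨v, by simp [(latL N r).zero_mem]⟩
  refine ⟨u, hu, fun i j hij => ?_⟩
  by_contra hcon
  push Not at hcon
  set u' : Fin N → ℤ := fun k => u k + ((if k = i then -(r : ℤ) else 0) +
    (if k = j then (r : ℤ) else 0)) with hu'
  have h1 : u' - v ∈ latL N r := by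
    have : u' - v = (u' - u) + (u - v) := by abel
    rw [this]
    exact (latL N r).add_mem (move_mem i j hij) hu
  have hS : ∑ k, u' k = ∑ k, u k := by
    rw [hu', Finset.sum_add_distrib, Finset.sum_add_distrib]
    simp
  have h2 : M u' = M u - 2 * N ^ 2 * r * (u i - u j - r) := by
    simp only [M]
    rw [hS]
    set S := ∑ k, u k with hSdef
    have h3 : ∀ k, ((N : ℤ) * u' k - S) ^ 2 = ((N : ℤ) * u k - S) ^ 2 +
        ((if k = i then -2 * N * r * (N * u i - S) + N ^ 2 * r ^ 2 else 0) +
        (if k = j then 2 * N * r * (N * u j - S) + N ^ 2 * r ^ 2 else 0)) := by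
      intro k
      simp only [hu']
      by_cases h4 : k = i
      · subst h4
        rw [if_pos rfl, if_pos rfl, if_neg hij, if_neg hij]
        ring
      · by_cases h5 : k = j
        · subst h5
          rw [if_neg h4, if_neg h4, if_pos rfl, if_pos rfl]
          ring
        · rw [if_neg h4, if_neg h4, if_neg h5, if_neg h5]
          ring
    rw [Finset.sum_congr rfl fun k _ => h3 k, Finset.sum_add_distrib, Finset.sum_add_distrib]
    simp only [Finset.sum_ite_eq', Finset.mem_univ, if_true]
    ring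
  have hN : 0 < N := by
    have := i.isLt
    omega
  have h6 : M u' < M u := by
    rw [h2]
    have : (0 : ℤ) < 2 * N ^ 2 * r * (u i - u j - r) := by
      have h7 : (0 : ℤ) < u i - u j - r := by linarith
      have h8 : (0 : ℤ) < N := by exact_mod_cast hN
      have h9 : (0 : ℤ) < r := by exact_mod_cast hr
      positivity
    linarith
  refine hmin u' h1 ?_
  change (M u').toNat < (M u).toNat
  have := hM u'
  omega

/-- every regular element is congruent to a permuted colour -/
theorem exists_color [NeZero N] (v : Fin N → ℤ) (hr : 0 < r)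
    (hv : ∀ i j, i ≠ j → ¬ (r : ℤ) ∣ v i - v j) :
    ∃ x ∈ colors N r, ∃ w : Equiv.Perm (Fin N),
      (QuotientAddGroup.mk (fun i => (x (w i) : ℤ)) : Qg N r) = QuotientAddGroup.mk v := by
  obtain ⟨u, hu, hle⟩ := exists_min v hr
  have hreg : ∀ i j, i ≠ j → ¬ (r : ℤ) ∣ u i - u j := fun i j hij => by
    rw [sub_mem_latL_dvd hu]
    exact hv i j hij
  have hlt : ∀ i j, u i - u j < r := by
    intro i j
    by_cases hij : i = j
    · subst hij
      simp [hr]
    · refine lt_of_le_of_ne (hle i j hij) fun h => hreg i j hij ?_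
      rw [h]
  have hinj : Function.Injective u := by
    intro i j h
    by_contra hij
    exact hreg i j hij (by rw [h, sub_self]; exact dvd_zero _)
  set τ := Tuple.sort u with hτ
  have hmono : StrictMono (u ∘ τ) :=
    (Tuple.monotone_sort u).strictMono_of_injective (hinj.comp τ.injective)
  have h0 : ∀ i, u (τ 0) ≤ u (τ i) := fun i => hmono.monotone (Fin.le_def.2 (Nat.zero_le _))
  refine ⟨fun i => (u (τ i) - u (τ 0)).toNat, ?_, τ.symm, ?_⟩
  · rw [colors, Finset.mem_filter, Fintype.mem_piFinset]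
    refine ⟨fun i => ?_, fun i j hij => ?_, fun i hi => ?_⟩
    · rw [Finset.mem_range]
      have := hlt (τ i) (τ 0)
      have := h0 i
      omega
    · have h1 : u (τ i) < u (τ j) := hmono hij
      have h2 := h0 i
      simp only
      omega
    · have : i = 0 := Fin.ext (by rw [hi]; rfl)
      rw [this]
      simp
  · rw [QuotientAddGroup.eq]
    have e1 : (-(fun i => (((u (τ (τ.symm i)) - u (τ 0)).toNat : ℕ) : ℤ)) + v) =
        (fun _ => u (τ 0)) - (u - v) := by
      funext i
      simp only [Pi.add_apply, Pi.neg_apply, Pi.sub_apply, Equiv.apply_symm_apply]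
      have h2 := h0 (τ.symm i)
      rw [Equiv.apply_symm_apply] at h2
      rw [Int.toNat_of_nonneg (by omega)]
      ring
    rw [e1]
    refine (latL N r).sub_mem ⟨u (τ 0), 0, by simp, fun i => by simp⟩ hu

/-- uniqueness of the alcove representative -/
theorem alcove_unique {x y : Fin N → ℤ} (hx : StrictMono x) (hy : StrictMono y)
    (hx' : ∀ i j, x i < x j + r) (hy' : ∀ i j, y i < y j + r) {w w' : Equiv.Perm (Fin N)}
    {c : ℤ} {l : Fin N → ℤ} (hl : ∑ i, l i = 0) (h : ∀ i, x (w i) = y (w' i) + c + r * l i) :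
    w = w' ∧ ∀ i, x i = y i + c := by
  classical
  have hl0 : ∀ i, l i = 0 := by
    by_contra hcon
    push Not at hcon
    obtain ⟨i, hi⟩ := hcon
    have hpos : ∃ a, 1 ≤ l a := by
      by_contra hc
      push Not at hc
      have h1 : ∑ i, l i < 0 := by
        have h2 : l i < 0 := lt_of_le_of_ne (by have := hc i; omega) hi
        calc ∑ i, l i < ∑ _i : Fin N, (0 : ℤ) :=
              Finset.sum_lt_sum (fun k _ => by have := hc k; omega) ⟨i, Finset.mem_univ _, h2⟩
          _ = 0 := by simp
      omega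
    have hneg : ∃ b, l b ≤ -1 := by
      by_contra hc
      push Not at hc
      have h1 : 0 < ∑ i, l i := by
        have h2 : 0 < l i := lt_of_le_of_ne (by have := hc i; omega) (Ne.symm hi)
        calc 0 = ∑ _i : Fin N, (0 : ℤ) := by simp
          _ < ∑ i, l i :=
              Finset.sum_lt_sum (fun k _ => by have := hc k; omega) ⟨i, Finset.mem_univ _, h2⟩
      omega
    obtain ⟨a, ha⟩ := hpos
    obtain ⟨b, hb⟩ := hneg
    have h1 := h a
    have h2 := h b
    have h3 := hx' (w a) (w b)
    have h4 := hy' (w' b) (w' a)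
    have hr : (0 : ℤ) ≤ r := by positivity
    nlinarith
  have h1 : ∀ i, x (w i) = y (w' i) + c := fun i => by rw [h i, hl0 i, mul_zero, add_zero]
  have h2 : ∀ k, x k = y (w' (w.symm k)) + c := fun k => by
    have := h1 (w.symm k)
    rwa [Equiv.apply_symm_apply] at this
  have h3 : StrictMono (fun k => y (w' (w.symm k))) := fun a b hab => by
    have := hx hab
    rw [h2 a, h2 b] at this
    simpa using this
  have h4 : y = fun k => y (w' (w.symm k)) := by
    refine (StrictMono.range_inj hy h3).1 ?_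
    ext t
    constructor
    · rintro ⟨k, rfl⟩
      exact ⟨w (w'.symm k), by simp⟩
    · rintro ⟨k, rfl⟩
      exact ⟨_, rfl⟩
  have h5 : ∀ k, k = w' (w.symm k) := fun k => hy.injective (congrFun h4 k)
  refine ⟨?_, fun i => ?_⟩
  · ext k
    have := h5 (w k)
    rw [Equiv.symm_apply_apply] at this
    rw [this]
  · rw [h2 i, ← h5 i]

theorem color_props {x : Fin N → ℕ} (hx : x ∈ colors N r) :
    StrictMono (fun i => (x i : ℤ)) ∧ (∀ i j, (x i : ℤ) < x j + r) ∧
      ∀ i : Fin N, (i : ℕ) = 0 → (x i : ℤ) = 0 := by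
  rw [colors, Finset.mem_filter, Fintype.mem_piFinset] at hx
  obtain ⟨h1, h2, h3⟩ := hx
  refine ⟨fun i j hij => Int.ofNat_lt.2 (h2 hij), fun i j => ?_, fun i hi => by
    rw [h3 i hi]; rfl⟩
  have := h1 i
  rw [Finset.mem_range] at this
  omega

/-- the sum over the colours in terms of the sum over the quotient group -/
theorem alcove_sum [NeZero N] [NeZero r] {F : (Fin N → ℤ) → ℂ} (hF : Inv N r F)
    (hsym : ∀ (σ : Equiv.Perm (Fin N)) v, F (fun i => v (σ i)) = F v)
    (hsing : ∀ (v : Fin N → ℤ) i j, i ≠ j → (r : ℤ) ∣ v i - v j → F v = 0) :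
    qsum N r F = (N.factorial : ℂ) * ∑ x ∈ colors N r, F (fun i => (x i : ℤ)) := by
  classical
  have hr : 0 < r := Nat.pos_of_ne_zero (NeZero.ne r)
  let Φ : (Fin N → ℕ) × Equiv.Perm (Fin N) → Qg N r :=
    fun p => QuotientAddGroup.mk (fun i => (p.1 (p.2 i) : ℤ))
  have h1 : ∑ p ∈ colors N r ×ˢ (univ : Finset (Equiv.Perm (Fin N))),
      F (fun i => (p.1 (p.2 i) : ℤ)) = qsum N r F := by
    have hinj : Set.InjOn Φ (colors N r ×ˢ (univ : Finset (Equiv.Perm (Fin N))) : Finset _) := by
      rintro ⟨x, w⟩ hx ⟨y, w'⟩ hy hxy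
      simp only [Finset.coe_product, Set.mem_prod, Finset.mem_coe] at hx hy
      obtain ⟨hx1, hx2, hx3⟩ := color_props hx.1
      obtain ⟨hy1, hy2, hy3⟩ := color_props hy.1
      have h2 : (QuotientAddGroup.mk (fun i => (y (w' i) : ℤ)) : Qg N r) =
        QuotientAddGroup.mk (fun i => (x (w i) : ℤ)) := hxy.symm
      rw [QuotientAddGroup.eq] at h2
      obtain ⟨c, l, hl, h3⟩ := h2
      obtain ⟨h4, h5⟩ := alcove_unique (x := fun i => (x i : ℤ)) (y := fun i => (y i : ℤ))
        (w := w) (w' := w') (c := c) (l := l) hx1 hy1 hx2 hy2 hl (fun i => by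
          have := h3 i
          simp only [Pi.add_apply, Pi.neg_apply] at this
          linarith)
      have h6 : c = 0 := by
        have := h5 0
        rw [hx3 0 rfl, hy3 0 rfl] at this
        omega
      have h7 : x = y := by
        funext i
        have := h5 i
        omega
      rw [h4, h7]
    rw [qsum]
    have h2 : ∑ p ∈ colors N r ×ˢ (univ : Finset (Equiv.Perm (Fin N))),
      F (fun i => (p.1 (p.2 i) : ℤ)) =
        ∑ q ∈ (colors N r ×ˢ (univ : Finset (Equiv.Perm (Fin N)))).image Φ, F q.out := by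
      rw [Finset.sum_image hinj]
      refine Finset.sum_congr rfl fun p _ => ?_
      exact hF.eq_of_mk_eq (mk_out (Φ p)).symm
    rw [h2]
    refine Finset.sum_subset (Finset.subset_univ _) fun q _ hq => ?_
    by_contra hne
    apply hq
    have h3 : ∀ i j, i ≠ j → ¬ (r : ℤ) ∣ q.out i - q.out j := fun i j hij hd =>
      hne (hsing _ i j hij hd)
    obtain ⟨x, hx, w, hw⟩ := exists_color q.out hr h3
    rw [Finset.mem_image]
    refine ⟨(x, w), Finset.mem_product.2 ⟨hx, Finset.mem_univ _⟩, ?_⟩
    rw [← mk_out q]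
    exact hw
  rw [← h1, Finset.sum_product, Finset.mul_sum]
  refine Finset.sum_congr rfl fun x _ => ?_
  have h2 : ∀ w ∈ (univ : Finset (Equiv.Perm (Fin N))), F (fun i => (x (w i) : ℤ)) =
      F (fun i => (x i : ℤ)) := fun w _ => hsym w (fun i => (x i : ℤ))
  rw [Finset.sum_congr rfl h2, Finset.sum_const, Finset.card_univ, Fintype.card_perm,
    Fintype.card_fin, nsmul_eq_mul]

end Pool.Agent.Helper21.AEC
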