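import Mathlib
import Pool.Agent.Helper21.AEC.Alcove

/-!
# The quadratic form, alternants and Gauss sums
-/

open Finset
open scoped Real

namespace Pool.Agent.Helper21.AEC

open Pool.Agent.Helper15.AllN

/-- `exp (2 π i t)` -/
noncomputable def ee (t : ℝ) : ℂ := Complex.exp (((2 * π * t : ℝ) : ℂ) * Complex.I)

theorem ee_add (s t : ℝ) : ee (s + t) = ee s * ee t := by
  rw [ee, ee, ee, ← Complex.exp_add]
  congr 1
  push_cast
  ring

@[simp] theorem ee_zero : ee 0 = 1 := by simp [ee]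

theorem ee_int (k : ℤ) : ee k = 1 := by
  rw [ee]
  have : (((2 * π * (k : ℝ) : ℝ) : ℂ) * Complex.I) = k * (2 * π * Complex.I) := by
    push_cast
    ring
  rw [this, Complex.exp_int_mul_two_pi_mul_I]

theorem ee_add_int (t : ℝ) (k : ℤ) : ee (t + k) = ee t := by rw [ee_add, ee_int, mul_one]

theorem norm_ee (t : ℝ) : ‖ee t‖ = 1 := by rw [ee, Complex.norm_exp_ofReal_mul_I]

theorem ee_ne_zero (t : ℝ) : ee t ≠ 0 := Complex.exp_ne_zero _

theorem ee_neg (t : ℝ) : ee (-t) = (ee t)⁻¹ := by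
  have : ee (-t) * ee t = 1 := by rw [← ee_add, neg_add_cancel, ee_zero]
  exact eq_inv_of_mul_eq_one_left this

theorem conj_ee (t : ℝ) : (starRingEnd ℂ) (ee t) = ee (-t) := by
  rw [ee, ee, ← Complex.exp_conj]
  congr 1
  rw [map_mul, Complex.conj_ofReal, Complex.conj_I]
  push_cast
  ring

theorem ee_eq_one {t : ℝ} (h : ee t = 1) : ∃ k : ℤ, t = k := by
  rw [ee, Complex.exp_eq_one_iff] at h
  obtain ⟨k, hk⟩ := h
  refine ⟨k, ?_⟩
  have h1 : (((2 * π * t : ℝ) : ℂ)) = ((2 * π * k : ℝ) : ℂ) := by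
    have h2 : (((2 * π * t : ℝ) : ℂ) * Complex.I) = (((2 * π * k : ℝ) : ℂ)) * Complex.I := by
      rw [hk]
      push_cast
      ring
    exact mul_right_cancel₀ Complex.I_ne_zero h2
  have h3 : 2 * π * t = 2 * π * k := by exact_mod_cast h1
  have h4 : (2 * π : ℝ) ≠ 0 := by positivity
  exact mul_left_cancel₀ h4 h3

theorem ee_natMul (n : ℕ) (t : ℝ) : ee (n * t) = ee t ^ n := by
  rw [ee, ee, ← Complex.exp_nat_mul]
  congr 1
  push_cast
  ring

/-- the invariant inner product for integer vectors -/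
noncomputable def ipZ {N : ℕ} (u v : Fin N → ℤ) : ℝ :=
  (∑ i, (u i : ℝ) * v i) - (∑ i, (u i : ℝ)) * (∑ i, (v i : ℝ)) / N

section ipZ

variable {N r : ℕ}

theorem ip_natCast (x y : Fin N → ℕ) :
    ip N x y = ipZ (fun i => (x i : ℤ)) (fun i => (y i : ℤ)) := by
  simp [ip, ipZ]

theorem ipZ_comm (u v : Fin N → ℤ) : ipZ u v = ipZ v u := by
  rw [ipZ, ipZ]
  congr 1
  · exact Finset.sum_congr rfl fun i _ => mul_comm _ _
  · rw [mul_comm]

theorem ipZ_add_left (u u' v : Fin N → ℤ) : ipZ (u + u') v = ipZ u v + ipZ u' v := by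
  simp only [ipZ, Pi.add_apply, Int.cast_add, add_mul, Finset.sum_add_distrib]
  ring

theorem ipZ_add_right (u v v' : Fin N → ℤ) : ipZ u (v + v') = ipZ u v + ipZ u v' := by
  rw [ipZ_comm, ipZ_add_left, ipZ_comm v, ipZ_comm v']

theorem ipZ_smul_left (a : ℤ) (u v : Fin N → ℤ) : ipZ (a • u) v = a * ipZ u v := by
  simp only [ipZ, Pi.smul_apply, smul_eq_mul, Int.cast_mul, mul_assoc, ← Finset.mul_sum]
  ring

theorem ipZ_smul_right (a : ℤ) (u v : Fin N → ℤ) : ipZ u (a • v) = a * ipZ u v := by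
  rw [ipZ_comm, ipZ_smul_left, ipZ_comm]

theorem ipZ_zero_right (u : Fin N → ℤ) : ipZ u 0 = 0 := by simp [ipZ]

theorem ipZ_neg_left (u v : Fin N → ℤ) : ipZ (-u) v = -ipZ u v := by
  have := ipZ_smul_left (-1) u v
  rw [neg_one_smul] at this
  rw [this]
  simp

theorem ipZ_neg_right (u v : Fin N → ℤ) : ipZ u (-v) = -ipZ u v := by
  rw [ipZ_comm, ipZ_neg_left, ipZ_comm]

theorem ipZ_perm (σ : Equiv.Perm (Fin N)) (u v : Fin N → ℤ) :
    ipZ (fun i => u (σ i)) (fun i => v (σ i)) = ipZ u v := by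
  rw [ipZ, ipZ, Equiv.sum_comp σ (fun i => (u i : ℝ) * v i), Equiv.sum_comp σ (fun i => (u i : ℝ)),
    Equiv.sum_comp σ (fun i => (v i : ℝ))]

theorem ipZ_add_self (u v : Fin N → ℤ) :
    ipZ (u + v) (u + v) = ipZ u u + 2 * ipZ u v + ipZ v v := by
  rw [ipZ_add_left, ipZ_add_right, ipZ_add_right, ipZ_comm v u]
  ring

theorem ipZ_const [NeZero N] (u : Fin N → ℤ) (c : ℤ) : ipZ u (fun _ => c) = 0 := by
  have hN : (N : ℝ) ≠ 0 := by exact_mod_cast NeZero.ne N
  simp only [ipZ, ← Finset.sum_mul, Finset.sum_const, Finset.card_univ, Fintype.card_fin,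
    nsmul_eq_mul]
  field_simp
  ring

/-- pairing with a lattice vector -/
theorem ipZ_lat [NeZero N] (u : Fin N → ℤ) {v : Fin N → ℤ} {c : ℤ} {l : Fin N → ℤ}
    (hl : ∑ i, l i = 0) (h : ∀ i, v i = c + r * l i) :
    ipZ u v = r * ((∑ i, u i * l i : ℤ) : ℝ) := by
  have h1 : v = (fun _ => c) + (r : ℤ) • l := by
    funext i
    simp [h i]
  rw [h1, ipZ_add_right, ipZ_const, ipZ_smul_right, zero_add]
  have h2 : ∑ i, (l i : ℝ) = 0 := by exact_mod_cast hl
  rw [ipZ, h2, mul_zero, zero_div, sub_zero]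
  push_cast
  ring

theorem exists_ipZ_lat [NeZero N] (u : Fin N → ℤ) {v : Fin N → ℤ} (hv : v ∈ latL N r) :
    ∃ k : ℤ, ipZ u v = r * k := by
  obtain ⟨c, l, hl, h⟩ := hv
  exact ⟨_, ipZ_lat u hl h⟩

/-- the norm of a lattice vector is even, up to scaling -/
theorem exists_ipZ_lat_self [NeZero N] {v : Fin N → ℤ} (hv : v ∈ latL N r) :
    ∃ k : ℤ, ipZ v v = 2 * r * r * k := by
  obtain ⟨c, l, hl, h⟩ := hv
  have h1 : ∑ i, v i * l i = r * ∑ i, l i * l i := by
    calc ∑ i, v i * l i = ∑ i, (c * l i + r * (l i * l i)) :=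
          Finset.sum_congr rfl fun i _ => by rw [h i]; ring
      _ = r * ∑ i, l i * l i := by
          rw [Finset.sum_add_distrib, ← Finset.mul_sum, ← Finset.mul_sum, hl, mul_zero, zero_add]
  have h2 : (2 : ℤ) ∣ ∑ i, l i * l i := by
    have h3 : ∑ i, l i * l i = ∑ i, (l i * l i - l i) := by
      rw [Finset.sum_sub_distrib, hl, sub_zero]
    rw [h3]
    refine Finset.dvd_sum fun i _ => ?_
    have h4 : Even (l i * (l i - 1)) := Int.even_mul_pred_self (l i)
    have h5 : l i * l i - l i = l i * (l i - 1) := by ring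
    rw [h5]
    exact h4.two_dvd
  obtain ⟨k, hk⟩ := h2
  refine ⟨k, ?_⟩
  rw [ipZ_lat v hl h, h1, hk]
  push_cast
  ring

/-- nondegeneracy -/
theorem mem_latL_of_forall [NeZero N] {v : Fin N → ℤ}
    (h : ∀ u : Fin N → ℤ, ∃ k : ℤ, ipZ u v = r * k) : v ∈ latL N r := by
  classical
  have hN : (N : ℝ) ≠ 0 := by exact_mod_cast NeZero.ne N
  set m : ℝ := (∑ i, (v i : ℝ)) / N with hm
  have h1 : ∀ i, ∃ k : ℤ, (v i : ℝ) - m = r * k := by
    intro i
    obtain ⟨k, hk⟩ := h (Pi.single i 1)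
    refine ⟨k, ?_⟩
    rw [← hk, ipZ]
    have e1 : ∑ j, (((Pi.single i 1 : Fin N → ℤ) j : ℤ) : ℝ) * v j = v i := by
      rw [Finset.sum_eq_single i]
      · simp
      · intro b _ hb
        simp [Pi.single_eq_of_ne hb]
      · simp
    have e2 : ∑ j, (((Pi.single i 1 : Fin N → ℤ) j : ℤ) : ℝ) = 1 := by
      rw [Finset.sum_eq_single i]
      · simp
      · intro b _ hb
        simp [Pi.single_eq_of_ne hb]
      · simp
    rw [e1, e2, one_mul]
  choose k hk using h1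
  have h2 : (r : ℝ) * ((∑ i, k i : ℤ) : ℝ) = 0 := by
    push_cast
    rw [Finset.mul_sum, ← Finset.sum_congr rfl fun i _ => hk i, Finset.sum_sub_distrib,
      Finset.sum_const, Finset.card_univ, Fintype.card_fin, nsmul_eq_mul, hm]
    field_simp
    ring
  have h3 : ∀ i, v i = (v 0 - r * k 0) + r * k i := by
    intro i
    have e1 := hk i
    have e2 := hk 0
    have e3 : (v i : ℝ) = (v 0 - r * k 0) + r * k i := by linarith
    exact_mod_cast e3
  by_cases hr : r = 0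
  · refine ⟨v 0 - r * k 0, 0, by simp, fun i => ?_⟩
    have := h3 i
    rw [hr] at this ⊢
    simpa using this
  · refine ⟨v 0 - r * k 0, k, ?_, h3⟩
    have h4 : ((∑ i, k i : ℤ) : ℝ) = 0 := by
      rcases mul_eq_zero.1 h2 with h5 | h5
      · exact absurd (by exact_mod_cast h5) hr
      · exact h5
    exact_mod_cast h4

end ipZ

section gauss

variable {N r : ℕ} [NeZero N] [NeZero r]

/-- the summand of the Gauss sum -/
noncomputable def gf (N r : ℕ) (a : ℤ) (u v : Fin N → ℤ) : ℂ :=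
  ee (a * ipZ v v / (2 * r) - ipZ v u / r)

omit [NeZero N] [NeZero r] in
theorem gf_add (a : ℤ) (u v w : Fin N → ℤ) :
    gf N r a u (v + w) = gf N r a u v * gf N r a u w * ee (a * ipZ v w / r) := by
  rw [gf, gf, gf, ← ee_add, ← ee_add, ipZ_add_self, ipZ_add_left]
  congr 1
  by_cases hr : (r : ℝ) = 0
  · simp [hr]
  · field_simp
    ring

theorem rne (r : ℕ) [NeZero r] : (r : ℝ) ≠ 0 := by exact_mod_cast NeZero.ne r

theorem gf_inv (a : ℤ) (u : Fin N → ℤ) : Inv N r (gf N r a u) := by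
  intro v l hl
  have hr := rne r
  obtain ⟨k1, hk1⟩ := exists_ipZ_lat v hl
  obtain ⟨k2, hk2⟩ := exists_ipZ_lat u hl
  obtain ⟨k3, hk3⟩ := exists_ipZ_lat_self hl
  rw [gf_add, gf, gf, ipZ_comm l u, hk1, hk2, hk3]
  have e1 : (a : ℝ) * (2 * r * r * k3) / (2 * r) - r * k2 / r = ((a * r * k3 - k2 : ℤ) : ℝ) := by
    push_cast
    field_simp
  have e2 : (a : ℝ) * (r * k1) / r = ((a * k1 : ℤ) : ℝ) := by
    push_cast
    field_simp
  rw [e1, e2, ee_int, ee_int, mul_one, mul_one]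

/-- the Gauss sum -/
noncomputable def Gs (N r : ℕ) [NeZero N] [NeZero r] (a : ℤ) (u : Fin N → ℤ) : ℂ :=
  qsum N r (gf N r a u)

theorem Gs_perm (a : ℤ) (u : Fin N → ℤ) (σ : Equiv.Perm (Fin N)) :
    Gs N r a (fun i => u (σ i)) = Gs N r a u := by
  rw [Gs, Gs, ← qsum_perm (gf_inv a (fun i => u (σ i))) σ]
  congr 1
  funext v
  rw [gf, gf, ipZ_perm, ipZ_perm]

/-- completing the square -/
theorem Gs_smul (a : ℤ) (g : Fin N → ℤ) :
    Gs N r a (a • g) = ee (-(a * ipZ g g) / (2 * r)) * Gs N r a 0 := by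
  have hr := rne r
  rw [Gs, Gs, ← qsum_shift (gf_inv a 0) (-g), ← qsum_mul_left]
  congr 1
  funext v
  rw [gf, gf, ← ee_add, ipZ_add_self, ipZ_neg_right, ipZ_neg_right, ipZ_neg_left, ipZ_smul_right,
    ipZ_zero_right]
  congr 1
  field_simp
  ring

/-- adding a constant does nothing -/
theorem Gs_add_const (a : ℤ) (u : Fin N → ℤ) (c : ℤ) :
    Gs N r a (u + fun _ => c) = Gs N r a u := by
  rw [Gs, Gs]
  congr 1
  funext v
  rw [gf, gf, ipZ_add_right, ipZ_const, add_zero]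

theorem conj_qsum (F : (Fin N → ℤ) → ℂ) :
    (starRingEnd ℂ) (qsum N r F) = qsum N r (fun v => (starRingEnd ℂ) (F v)) := by
  rw [qsum, qsum, map_sum]

theorem conj_Gs_zero (a : ℤ) : (starRingEnd ℂ) (Gs N r a 0) = Gs N r (-a) 0 := by
  rw [Gs, Gs, conj_qsum]
  congr 1
  funext v
  rw [gf, gf, conj_ee, ipZ_zero_right]
  congr 1
  push_cast
  ring

omit [NeZero N] in
theorem latL_mono {s a : ℕ} : latL N (a * s) ≤ latL N s := by
  rintro v ⟨c, l, hl, h⟩
  refine ⟨c, fun i => a * l i, ?_, fun i => ?_⟩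
  · rw [← Finset.mul_sum, hl, mul_zero]
  · rw [h i]
    push_cast
    ring

/-- the square of the modulus of the Gauss sum, first form -/
theorem Gs_mul_conj (a : ℤ) : Gs N r a 0 * (starRingEnd ℂ) (Gs N r a 0) =
    qsum N r (fun v => gf N r a 0 v * qsum N r (fun w => ee (a * ipZ v w / r))) := by
  have h1 : Gs N r a 0 * (starRingEnd ℂ) (Gs N r a 0) =
      qsum N r (fun w => gf N r (-a) 0 w * qsum N r (fun v => gf N r a 0 (v + w))) := by
    have h2 : (fun w => gf N r (-a) 0 w * qsum N r (fun v => gf N r a 0 (v + w))) =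
        fun w => Gs N r a 0 * gf N r (-a) 0 w := by
      funext w
      rw [qsum_shift (gf_inv a 0), mul_comm, Gs]
    rw [h2, qsum_mul_left, conj_Gs_zero, Gs, Gs]
  rw [h1]
  have h3 : (fun w => gf N r (-a) 0 w * qsum N r (fun v => gf N r a 0 (v + w))) =
      fun w => ∑ q : Qg N r, gf N r a 0 q.out * ee (a * ipZ q.out w / r) := by
    funext w
    rw [qsum, Finset.mul_sum]
    refine Finset.sum_congr rfl fun q _ => ?_
    rw [gf_add]
    have h4 : gf N r (-a) 0 w * gf N r a 0 w = 1 := by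
      rw [gf, gf, ← ee_add, ipZ_zero_right]
      have : (((-a : ℤ) : ℝ) * ipZ w w / (2 * r) - 0 / r + (a * ipZ w w / (2 * r) - 0 / r)) = 0 := by
        push_cast
        ring
      rw [this, ee_zero]
    calc gf N r (-a) 0 w * (gf N r a 0 q.out * gf N r a 0 w * ee (a * ipZ q.out w / r))
        = (gf N r (-a) 0 w * gf N r a 0 w) * (gf N r a 0 q.out * ee (a * ipZ q.out w / r)) := by
          ring
      _ = _ := by rw [h4, one_mul]
  rw [h3, qsum_sum, qsum]
  refine Finset.sum_congr rfl fun q _ => ?_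
  rw [qsum_mul_left]

end gauss

end Pool.Agent.Helper21.AEC
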