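import Mathlib
import Pool.Agent.Helper21.AEC.Gauss

/-!
# The modulus of the Gauss sums
-/

open Finset
open scoped Real

namespace Pool.Agent.Helper21.AEC

variable {N : ℕ} [NeZero N]

/-- the projection of the quotient groups -/
noncomputable def prj (N a s : ℕ) : Qg N (a * s) →+ Qg N s :=
  QuotientAddGroup.map (latL N (a * s)) (latL N s) (AddMonoidHom.id _) (fun _ h => latL_mono h)

omit [NeZero N] in
theorem prj_surjective (a s : ℕ) : Function.Surjective (prj N a s) := by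
  intro q
  obtain ⟨v, rfl⟩ := QuotientAddGroup.mk_surjective q
  exact ⟨QuotientAddGroup.mk v, rfl⟩

omit [NeZero N] in
theorem mem_ker_prj {a s : ℕ} (q : Qg N (a * s)) : q ∈ (prj N a s).ker ↔ q.out ∈ latL N s := by
  rw [AddMonoidHom.mem_ker]
  conv_lhs => rw [← mk_out q]
  exact QuotientAddGroup.eq_zero_iff q.out

theorem card_ker_prj (a s : ℕ) [NeZero a] [NeZero s] :
    Nat.card (prj N a s).ker = a ^ (N - 1) := by
  have hs : NeZero (a * s) := ⟨mul_ne_zero (NeZero.ne a) (NeZero.ne s)⟩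
  have h1 := AddSubgroup.card_eq_card_quotient_mul_card_addSubgroup (prj N a s).ker
  have h2 : Nat.card (Qg N (a * s) ⧸ (prj N a s).ker) = Nat.card (Qg N s) :=
    Nat.card_congr (QuotientAddGroup.quotientKerEquivOfSurjective (prj N a s)
      (prj_surjective a s)).toEquiv
  rw [h2, card_Qg', card_Qg', mul_pow] at h1
  have h3 : 0 < N * s ^ (N - 1) :=
    Nat.mul_pos (Nat.pos_of_ne_zero (NeZero.ne N)) (pow_pos (Nat.pos_of_ne_zero (NeZero.ne s)) _)
  have h4 : N * s ^ (N - 1) * a ^ (N - 1) = N * s ^ (N - 1) * Nat.card (prj N a s).ker := by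
    rw [← h1]
    ring
  exact (Nat.eq_of_mul_eq_mul_left h3 h4).symm

theorem card_filter_latL (a s : ℕ) [NeZero a] [NeZero s] [NeZero (a * s)]
    [DecidablePred fun q : Qg N (a * s) => q.out ∈ latL N s] :
    #{q : Qg N (a * s) | q.out ∈ latL N s} = a ^ (N - 1) := by
  classical
  rw [← card_ker_prj (N := N) a s, Nat.card_eq_fintype_card, Fintype.card_subtype]
  congr 1
  ext q
  simp only [Finset.mem_filter, Finset.mem_univ, true_and]
  rw [mem_ker_prj]

/-- the inner character sum -/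
theorem inner_sum (a s : ℕ) [NeZero a] [NeZero s] [NeZero (a * s)] (v : Fin N → ℤ)
    [Decidable (v ∈ latL N s)] :
    qsum N (a * s) (fun w => ee (((a : ℕ) : ℤ) * ipZ v w / ((a * s : ℕ) : ℝ))) =
      if v ∈ latL N s then (Nat.card (Qg N (a * s)) : ℂ) else 0 := by
  have ha : (a : ℝ) ≠ 0 := by exact_mod_cast NeZero.ne a
  have hs : (s : ℝ) ≠ 0 := by exact_mod_cast NeZero.ne s
  have e1 : (fun w : Fin N → ℤ => ee (((a : ℕ) : ℤ) * ipZ v w / ((a * s : ℕ) : ℝ))) =
      fun w => ee (ipZ v w / s) := by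
    funext w
    congr 1
    push_cast
    field_simp
  rw [e1]
  split_ifs with hv
  · rw [← qsum_one]
    congr 1
    funext w
    obtain ⟨k, hk⟩ := exists_ipZ_lat w hv
    rw [ipZ_comm, hk, mul_div_cancel_left₀ _ hs, ee_int]
  · have h1 : ∃ b : Fin N → ℤ, ee (ipZ v b / s) ≠ 1 := by
      by_contra hcon
      push Not at hcon
      apply hv
      refine mem_latL_of_forall fun u => ?_
      obtain ⟨k, hk⟩ := ee_eq_one (hcon u)
      refine ⟨k, ?_⟩
      rw [ipZ_comm, ← hk]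
      field_simp
    obtain ⟨b, hb⟩ := h1
    refine qsum_char (χ := fun w => ee (ipZ v w / s)) ?_ ?_ hb
    · intro w l hl
      obtain ⟨k, hk⟩ := exists_ipZ_lat v (latL_mono hl)
      simp only
      rw [ipZ_add_right, hk, add_div, mul_div_cancel_left₀ _ hs, ee_add_int]
    · intro u w
      rw [← ee_add, ipZ_add_right, add_div]

theorem normSq_Gs (a s : ℕ) [NeZero a] [NeZero s] [NeZero (a * s)] :
    Gs N (a * s) (a : ℕ) 0 * (starRingEnd ℂ) (Gs N (a * s) (a : ℕ) 0) =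
      (Nat.card (Qg N (a * s)) : ℂ) * (a : ℂ) ^ (N - 1) := by
  classical
  have ha : (a : ℝ) ≠ 0 := by exact_mod_cast NeZero.ne a
  have hs : (s : ℝ) ≠ 0 := by exact_mod_cast NeZero.ne s
  rw [Gs_mul_conj, qsum]
  have h1 : ∀ q ∈ (univ : Finset (Qg N (a * s))),
      gf N (a * s) ((a : ℕ) : ℤ) 0 q.out *
        qsum N (a * s) (fun w => ee (((a : ℕ) : ℤ) * ipZ q.out w / ((a * s : ℕ) : ℝ))) =
      if q.out ∈ latL N s then (Nat.card (Qg N (a * s)) : ℂ) else 0 := by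
    intro q _
    rw [inner_sum]
    split_ifs with hq
    · obtain ⟨k, hk⟩ := exists_ipZ_lat_self hq
      rw [gf, hk, ipZ_zero_right]
      have e1 : ((((a : ℕ) : ℤ) : ℝ) * (2 * s * s * k) / (2 * ((a * s : ℕ) : ℝ)) -
          0 / ((a * s : ℕ) : ℝ)) = ((s * k : ℤ) : ℝ) := by
        push_cast
        field_simp
        ring
      rw [e1, ee_int, one_mul]
    · rw [mul_zero]
  rw [Finset.sum_congr rfl h1, ← Finset.sum_filter, Finset.sum_const, card_filter_latL,
    nsmul_eq_mul]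
  push_cast
  ring

theorem norm_Gs_sq (a s : ℕ) [NeZero a] [NeZero s] [NeZero (a * s)] :
    ‖Gs N (a * s) (a : ℕ) 0‖ ^ 2 = (N * ((a * s : ℕ) : ℝ) ^ (N - 1)) * (a : ℝ) ^ (N - 1) := by
  have h := normSq_Gs (N := N) a s
  rw [Complex.mul_conj, card_Qg', Complex.normSq_eq_norm_sq] at h
  have h2 : ((‖Gs N (a * s) (a : ℕ) 0‖ ^ 2 : ℝ) : ℂ) =
      (((N * ((a * s : ℕ) : ℝ) ^ (N - 1)) * (a : ℝ) ^ (N - 1) : ℝ) : ℂ) := by
    rw [h]
    push_cast
    ring
  exact_mod_cast h2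

theorem norm_Gs_one_sq (r : ℕ) [NeZero r] : ‖Gs N r 1 0‖ ^ 2 = N * (r : ℝ) ^ (N - 1) := by
  have hr : NeZero (1 * r) := ⟨by rw [one_mul]; exact NeZero.ne r⟩
  have h := norm_Gs_sq (N := N) 1 r
  have e : ∀ (m : ℕ) [NeZero m], m = r → ‖Gs N m 1 0‖ ^ 2 = N * (m : ℝ) ^ (N - 1) →
      ‖Gs N r 1 0‖ ^ 2 = N * (r : ℝ) ^ (N - 1) := by
    intro m _ hm
    subst hm
    exact id
  refine e (1 * r) (one_mul r) ?_
  simpa using h

theorem norm_Gs_neg_one_sq (r : ℕ) [NeZero r] : ‖Gs N r (-1) 0‖ ^ 2 = N * (r : ℝ) ^ (N - 1) := by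
  rw [← conj_Gs_zero, RCLike.norm_conj, norm_Gs_one_sq]

/-- vanishing of the Gauss sum -/
theorem Gs_eq_zero (a s : ℕ) [NeZero a] [NeZero s] [NeZero (a * s)] {u : Fin N → ℤ} {i j : Fin N}
    (h : ¬ (a : ℤ) ∣ u i - u j) : Gs N (a * s) (a : ℕ) u = 0 := by
  classical
  have ha : (a : ℝ) ≠ 0 := by exact_mod_cast NeZero.ne a
  have hs : (s : ℝ) ≠ 0 := by exact_mod_cast NeZero.ne s
  have hij : i ≠ j := by
    rintro rfl
    simp at h
  set l : Fin N → ℤ := fun k => (if k = i then 1 else 0) - (if k = j then 1 else 0) with hl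
  have hl0 : ∑ k, l k = 0 := by
    rw [hl, Finset.sum_sub_distrib]
    simp
  have hb : (s : ℤ) • l ∈ latL N s := ⟨0, l, hl0, fun k => by simp⟩
  set b : Fin N → ℤ := (s : ℤ) • l with hbdef
  have hsum : ∀ w : Fin N → ℤ, ∑ k, w k * l k = w i - w j := by
    intro w
    rw [hl]
    simp only [mul_sub, mul_ite, mul_one, mul_zero, Finset.sum_sub_distrib,
      Finset.sum_ite_eq', Finset.mem_univ, if_true]
  have hbw : ∀ w : Fin N → ℤ, ipZ w b = s * ((w i - w j : ℤ) : ℝ) := by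
    intro w
    rw [ipZ_lat (r := s) (c := 0) w hl0 (fun k => by simp [hbdef]), hsum]
  have hbb : ipZ b b = 2 * s * s := by
    rw [hbw b]
    have e1 : b i - b j = 2 * s := by
      simp only [hbdef, Pi.smul_apply, smul_eq_mul, hl]
      rw [if_neg hij, if_neg hij.symm]
      simp only [if_true]
      ring
    rw [e1]
    push_cast
    ring
  have h1 := qsum_shift (gf_inv (N := N) (r := a * s) ((a : ℕ) : ℤ) u) b
  have h2 : (fun v => gf N (a * s) ((a : ℕ) : ℤ) u (v + b)) =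
      fun v => ee (-(((u i - u j : ℤ) : ℝ) / a)) * gf N (a * s) ((a : ℕ) : ℤ) u v := by
    funext v
    rw [gf_add, mul_assoc, mul_comm]
    congr 1
    rw [gf, ← ee_add, hbb, ipZ_comm b u, hbw u, hbw v]
    have e1 : ((((a : ℕ) : ℤ) : ℝ) * (2 * s * s) / (2 * ((a * s : ℕ) : ℝ)) -
        s * ((u i - u j : ℤ) : ℝ) / ((a * s : ℕ) : ℝ) +
        (((a : ℕ) : ℤ) : ℝ) * (s * ((v i - v j : ℤ) : ℝ)) / ((a * s : ℕ) : ℝ)) =
        -(((u i - u j : ℤ) : ℝ) / a) + ((s + (v i - v j) : ℤ) : ℝ) := by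
      push_cast
      field_simp
      ring
    rw [e1, ee_add_int]
  rw [h2, qsum_mul_left] at h1
  have h3 : ee (-(((u i - u j : ℤ) : ℝ) / a)) ≠ 1 := by
    intro h4
    obtain ⟨k, hk⟩ := ee_eq_one h4
    apply h
    refine ⟨-k, ?_⟩
    have h5 : ((u i - u j : ℤ) : ℝ) = ((a * -k : ℤ) : ℝ) := by
      push_cast at hk ⊢
      have : ((u i : ℝ) - u j) / a = -k := by linarith
      rw [div_eq_iff ha] at this
      rw [this]
      ring
    exact_mod_cast h5
  have h6 : (ee (-(((u i - u j : ℤ) : ℝ) / a)) - 1) * Gs N (a * s) (a : ℕ) u = 0 := by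
    rw [sub_mul, one_mul, Gs, h1, sub_self]
  exact (mul_eq_zero.1 h6).resolve_left (sub_ne_zero.2 h3)

/-- the modulus of the Gauss sum when it does not vanish -/
theorem norm_Gs_of_dvd (a s : ℕ) [NeZero a] [NeZero s] [NeZero (a * s)] {u : Fin N → ℤ}
    (h : ∀ i, (a : ℤ) ∣ u i - u 0) : ‖Gs N (a * s) (a : ℕ) u‖ = ‖Gs N (a * s) (a : ℕ) 0‖ := by
  choose g hg using h
  have h1 : u = (((a : ℕ) : ℤ) • g) + fun _ => u 0 := by
    funext i
    have := hg i
    simp only [Pi.add_apply, Pi.smul_apply, smul_eq_mul]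
    linarith
  rw [h1, Gs_add_const, Gs_smul, norm_mul, norm_ee, one_mul]

end Pool.Agent.Helper21.AEC
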