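import Mathlib
import Pool.Agent.Helper21.AEC.GaussNorm

/-!
# Alternants
-/

open Finset
open scoped Real

namespace Pool.Agent.Helper21.AEC

open Pool.Agent.Helper15.AllN Pool.Agent.Helper15.RT

/-- the sign of a permutation as a complex number -/
noncomputable def sg {N : ℕ} (w : Equiv.Perm (Fin N)) : ℂ := ((Equiv.Perm.sign w : ℤ) : ℂ)

theorem sg_mul {N : ℕ} (w w' : Equiv.Perm (Fin N)) : sg (w * w') = sg w * sg w' := by
  simp [sg, Equiv.Perm.sign_mul]

theorem sg_inv {N : ℕ} (w : Equiv.Perm (Fin N)) : sg w⁻¹ = sg w := by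
  simp [sg, Equiv.Perm.sign_inv]

theorem sg_mul_self {N : ℕ} (w : Equiv.Perm (Fin N)) : sg w * sg w = 1 := by
  rw [sg]
  rcases Int.units_eq_one_or (Equiv.Perm.sign w) with h | h <;> simp [h]

theorem norm_sg {N : ℕ} (w : Equiv.Perm (Fin N)) : ‖sg w‖ = 1 := by
  rw [sg]
  rcases Int.units_eq_one_or (Equiv.Perm.sign w) with h | h <;> simp [h]

theorem conj_sg {N : ℕ} (w : Equiv.Perm (Fin N)) : (starRingEnd ℂ) (sg w) = sg w := by
  rw [sg]
  rcases Int.units_eq_one_or (Equiv.Perm.sign w) with h | h <;> simp [h]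

/-- the alternant, with an exponent sign -/
noncomputable def alt (N r : ℕ) (ε : ℤ) (x v : Fin N → ℤ) : ℂ :=
  ∑ w : Equiv.Perm (Fin N), sg w * ee (-(ε * ipZ (fun i => x (w i)) v) / r)

section alt

variable {N r : ℕ}

theorem alt_comm (ε : ℤ) (x v : Fin N → ℤ) : alt N r ε x v = alt N r ε v x := by
  rw [alt, alt, ← Equiv.sum_comp (Equiv.inv (Equiv.Perm (Fin N)))]
  refine Finset.sum_congr rfl fun w _ => ?_
  rw [Equiv.inv_apply, sg_inv]
  congr 3
  rw [← ipZ_perm w, ipZ_comm]
  simp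

theorem conj_alt (ε : ℤ) (x v : Fin N → ℤ) :
    (starRingEnd ℂ) (alt N r ε x v) = alt N r (-ε) x v := by
  rw [alt, alt, map_sum]
  refine Finset.sum_congr rfl fun w _ => ?_
  rw [map_mul, conj_sg, conj_ee]
  congr 2
  push_cast
  ring

theorem alt_perm_right (ε : ℤ) (x v : Fin N → ℤ) (σ : Equiv.Perm (Fin N)) :
    alt N r ε x (fun i => v (σ i)) = sg σ * alt N r ε x v := by
  rw [alt, alt, Finset.mul_sum, ← Equiv.sum_comp (Equiv.mulRight σ)]
  refine Finset.sum_congr rfl fun w _ => ?_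
  rw [Equiv.coe_mulRight, sg_mul]
  have h1 : ipZ (fun i => x ((w * σ) i)) (fun i => v (σ i)) = ipZ (fun j => x (w j)) v :=
    ipZ_perm σ (fun j => x (w j)) v
  rw [h1]
  ring

theorem alt_perm_left (ε : ℤ) (x v : Fin N → ℤ) (σ : Equiv.Perm (Fin N)) :
    alt N r ε (fun i => x (σ i)) v = sg σ * alt N r ε x v := by
  rw [alt_comm, alt_perm_right, alt_comm]

theorem alt_inv [NeZero N] [NeZero r] (ε : ℤ) (x : Fin N → ℤ) : Inv N r (alt N r ε x) := by
  intro v l hl
  rw [alt, alt]
  refine Finset.sum_congr rfl fun w _ => ?_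
  obtain ⟨k, hk⟩ := exists_ipZ_lat (fun i => x (w i)) hl
  have hr := rne r
  rw [ipZ_add_right, hk]
  have : -((ε : ℝ) * (ipZ (fun i => x (w i)) v + r * k)) / r =
      -(ε * ipZ (fun i => x (w i)) v) / r + ((-(ε * k) : ℤ) : ℝ) := by
    push_cast
    field_simp
    ring
  rw [this, ee_add_int]

/-- swapping two congruent coordinates is a lattice translation -/
theorem swap_sub_mem (v : Fin N → ℤ) {i j : Fin N} (hij : i ≠ j) (h : (r : ℤ) ∣ v i - v j) :
    (fun k => v (Equiv.swap i j k)) - v ∈ latL N r := by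
  classical
  obtain ⟨t, ht⟩ := h
  refine ⟨0, fun k => (if k = i then -t else 0) + (if k = j then t else 0), ?_, fun k => ?_⟩
  · rw [Finset.sum_add_distrib]
    simp
  · simp only [Pi.sub_apply]
    by_cases h1 : k = i
    · subst h1
      rw [Equiv.swap_apply_left, if_pos rfl, if_neg hij]
      linarith
    · by_cases h2 : k = j
      · subst h2
        rw [Equiv.swap_apply_right, if_neg h1, if_pos rfl]
        linarith
      · rw [Equiv.swap_apply_of_ne_of_ne h1 h2, if_neg h1, if_neg h2]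
        simp

theorem alt_sing [NeZero N] [NeZero r] (ε : ℤ) (x v : Fin N → ℤ) {i j : Fin N} (hij : i ≠ j)
    (h : (r : ℤ) ∣ v i - v j) : alt N r ε x v = 0 := by
  have h1 := alt_inv (r := r) ε x v _ (swap_sub_mem v hij h)
  rw [add_sub_cancel, alt_perm_right] at h1
  have h2 : sg (Equiv.swap i j) = -1 := by
    rw [sg, Equiv.Perm.sign_swap hij]
    simp
  rw [h2] at h1
  have h3 : (2 : ℂ) * alt N r ε x v = 0 := by linear_combination -h1
  exact (mul_eq_zero.1 h3).resolve_left two_ne_zero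

/-- reduction of a double sum over permutations -/
theorem double_sum (H : (Fin N → ℤ) → ℂ) (hH : ∀ (σ : Equiv.Perm (Fin N)) u,
    H (fun i => u (σ i)) = H u) (ε : ℤ) (x y : Fin N → ℤ) :
    ∑ w : Equiv.Perm (Fin N), ∑ w' : Equiv.Perm (Fin N),
      sg w * sg w' * H ((fun i => x (w i)) + ε • (fun i => y (w' i))) =
      (N.factorial : ℂ) * ∑ σ : Equiv.Perm (Fin N), sg σ * H (x + ε • (fun i => y (σ i))) := by
  have h1 : ∀ w ∈ (univ : Finset (Equiv.Perm (Fin N))), ∑ w' : Equiv.Perm (Fin N),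
      sg w * sg w' * H ((fun i => x (w i)) + ε • (fun i => y (w' i))) =
      ∑ σ : Equiv.Perm (Fin N), sg σ * H (x + ε • (fun i => y (σ i))) := by
    intro w _
    rw [← Equiv.sum_comp (Equiv.mulRight w)]
    refine Finset.sum_congr rfl fun σ _ => ?_
    rw [Equiv.coe_mulRight, sg_mul]
    have h2 : (fun i => x (w i)) + ε • (fun i => y ((σ * w) i)) =
        fun i => (x + ε • (fun j => y (σ j))) (w i) := rfl
    rw [h2, hH]
    have := sg_mul_self w
    linear_combination (sg σ * H (x + ε • (fun j => y (σ j)))) * this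
  rw [Finset.sum_congr rfl h1, Finset.sum_const, Finset.card_univ, Fintype.card_perm,
    Fintype.card_fin, nsmul_eq_mul]

/-- product of two alternants and a Gaussian -/
theorem qsum_alt [NeZero N] [NeZero r] (a ε : ℤ) (x y : Fin N → ℤ) :
    qsum N r (fun v => alt N r 1 x v * ee (a * ipZ v v / (2 * r)) * alt N r ε y v) =
      (N.factorial : ℂ) * ∑ σ : Equiv.Perm (Fin N),
        sg σ * Gs N r a (x + ε • (fun i => y (σ i))) := by
  rw [← double_sum (fun u => Gs N r a u) (fun σ u => Gs_perm a u σ) ε x y]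
  have h1 : (fun v => alt N r 1 x v * ee (a * ipZ v v / (2 * r)) * alt N r ε y v) =
      fun v => ∑ w : Equiv.Perm (Fin N), ∑ w' : Equiv.Perm (Fin N), sg w * sg w' *
        gf N r a ((fun i => x (w i)) + ε • (fun i => y (w' i))) v := by
    funext v
    rw [alt, alt, Finset.sum_mul, Finset.sum_mul_sum]
    refine Finset.sum_congr rfl fun w _ => Finset.sum_congr rfl fun w' _ => ?_
    rw [gf, ipZ_add_right, ipZ_smul_right]
    have hr := rne r
    have e1 : (a : ℝ) * ipZ v v / (2 * r) - (ipZ v (fun i => x (w i)) +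
        ε * ipZ v (fun i => y (w' i))) / r = -(((1 : ℤ) : ℝ) * ipZ (fun i => x (w i)) v) / r +
        (a * ipZ v v / (2 * r) + -(ε * ipZ (fun i => y (w' i)) v) / r) := by
      rw [ipZ_comm v (fun i => x (w i)), ipZ_comm v (fun i => y (w' i))]
      push_cast
      field_simp
      ring
    rw [e1, ee_add, ee_add]
    ring
  rw [h1, qsum_sum]
  refine Finset.sum_congr rfl fun w _ => ?_
  rw [qsum_sum]
  refine Finset.sum_congr rfl fun w' _ => ?_
  rw [qsum_mul_left, Gs]

/-- from colours to the quotient group -/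
theorem alt_color_sum [NeZero N] [NeZero r] (a : ℤ) {ε : ℤ} (x y : Fin N → ℤ) :
    qsum N r (fun v => alt N r 1 x v * ee (a * ipZ v v / (2 * r)) * alt N r ε y v) =
      (N.factorial : ℂ) * ∑ v ∈ colors N r, alt N r 1 x (fun i => (v i : ℤ)) *
        ee (a * ipZ (fun i => (v i : ℤ)) (fun i => (v i : ℤ)) / (2 * r)) *
        alt N r ε y (fun i => (v i : ℤ)) := by
  refine alcove_sum (F := fun v => alt N r 1 x v * ee (a * ipZ v v / (2 * r)) * alt N r ε y v)
    ?_ ?_ ?_
  · intro v l hl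
    have h1 := gf_inv (N := N) (r := r) a 0 v l hl
    simp only [gf, ipZ_zero_right, zero_div, sub_zero] at h1
    simp only
    rw [alt_inv 1 x v l hl, alt_inv ε y v l hl, h1]
  · intro σ v
    rw [alt_perm_right, alt_perm_right, ipZ_perm]
    have := sg_mul_self σ
    linear_combination (alt N r 1 x v * ee (a * ipZ v v / (2 * r)) * alt N r ε y v) * this
  · intro v i j hij h
    rw [alt_sing 1 x v hij h, zero_mul, zero_mul]

theorem color_sum_eq [NeZero N] [NeZero r] (a ε : ℤ) (x y : Fin N → ℤ) :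
    ∑ v ∈ colors N r, alt N r 1 x (fun i => (v i : ℤ)) *
        ee (a * ipZ (fun i => (v i : ℤ)) (fun i => (v i : ℤ)) / (2 * r)) *
        alt N r ε y (fun i => (v i : ℤ)) =
      ∑ σ : Equiv.Perm (Fin N), sg σ * Gs N r a (x + ε • (fun i => y (σ i))) := by
  have h1 := alt_color_sum (r := r) a (ε := ε) x y
  rw [qsum_alt] at h1
  have h2 : (N.factorial : ℂ) ≠ 0 := by exact_mod_cast N.factorial_ne_zero
  exact (mul_left_cancel₀ h2 h1).symm

/-- the unimodular case -/
theorem color_sum_unimodular [NeZero N] [NeZero r] {a : ℤ} (ha : a * a = 1) (x y : Fin N → ℤ) :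
    ∑ v ∈ colors N r, alt N r 1 x (fun i => (v i : ℤ)) *
        ee (a * ipZ (fun i => (v i : ℤ)) (fun i => (v i : ℤ)) / (2 * r)) *
        alt N r a y (fun i => (v i : ℤ)) =
      Gs N r a 0 * ee (-(a * ipZ x x) / (2 * r)) * ee (-(a * ipZ y y) / (2 * r)) *
        alt N r 1 x y := by
  rw [color_sum_eq, alt_comm 1 x y, alt, Finset.mul_sum]
  refine Finset.sum_congr rfl fun σ _ => ?_
  have h1 : x + a • (fun i => y (σ i)) = a • (a • x + fun i => y (σ i)) := by
    rw [smul_add, smul_smul, ha, one_smul]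
  have har : (a : ℝ) * a = 1 := by exact_mod_cast ha
  rw [h1, Gs_smul, ipZ_add_self, ipZ_smul_left, ipZ_smul_left, ipZ_smul_right, ipZ_perm]
  have hr := rne r
  have e1 : -((a : ℝ) * (a * (a * ipZ x x) + 2 * (a * ipZ x (fun i => y (σ i))) + ipZ y y)) /
      (2 * r) = -(a * ipZ x x) / (2 * r) + (-(a * ipZ y y) / (2 * r) +
        -(((1 : ℤ) : ℝ) * ipZ (fun i => y (σ i)) x) / r) := by
    rw [ipZ_comm x (fun i => y (σ i))]
    have e2 : (a : ℝ) * (a * (a * ipZ x x) + 2 * (a * ipZ (fun i => y (σ i)) x) + ipZ y y) =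
        (a * a) * (a * ipZ x x) + 2 * (a * a) * ipZ (fun i => y (σ i)) x + a * ipZ y y := by ring
    rw [e2, har]
    push_cast
    field_simp
    ring
  rw [e1, ee_add, ee_add]
  ring

end alt

end Pool.Agent.Helper21.AEC
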