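import Mathlib
import Pool.Agent.Helper21.AEC.Alt
import Pool.Agent.Helper15.AllN.Eval

/-!
# Facts on the Kac-Peterson S-matrix
-/

open Finset
open scoped Real

namespace Pool.Agent.Helper21.AEC

open Pool.Agent.Helper15.AllN Pool.Agent.Helper15.RT

/-- the prefactor -/
noncomputable def pf (N r : ℕ) : ℂ := Complex.I ^ (N * (N - 1) / 2) / (nrm N r : ℂ)

/-- a natural vector as an integer vector -/
def zc {N : ℕ} (x : Fin N → ℕ) : Fin N → ℤ := fun i => (x i : ℤ)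

theorem norm_pf {N r : ℕ} : ‖pf N r‖ = (nrm N r)⁻¹ := by
  rw [pf, norm_div, norm_pow, Complex.norm_I, one_pow, Complex.norm_real,
    Real.norm_of_nonneg (by rw [nrm]; exact Real.sqrt_nonneg _), one_div]

theorem Smat_alt (N r : ℕ) (x y : Fin N → ℕ) : Smat N r x y = pf N r * alt N r 1 (zc x) (zc y) := by
  rw [Smat, pf, nrm, alt]
  congr 1
  refine Finset.sum_congr rfl fun w _ => ?_
  rw [sg, ip_natCast, ee]
  congr 2
  have : ipZ (fun i => ((x (w i) : ℕ) : ℤ)) (fun i => (y i : ℤ)) =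
    ipZ (fun i => zc x (w i)) (zc y) := rfl
  rw [this]
  push_cast
  ring

theorem theta_ee (N r : ℕ) (x : Fin N → ℕ) :
    theta N r x = ee (ipZ (zc x) (zc x) / (2 * r)) * ee (-(ipZ (zc (vac N)) (zc (vac N)) / (2 * r))) := by
  rw [theta, ip_natCast, ip_natCast, ← ee_add, ee]
  congr 1
  have h1 : ipZ (fun i => ((x i : ℕ) : ℤ)) (fun i => (x i : ℤ)) = ipZ (zc x) (zc x) := rfl
  have h2 : ipZ (fun i => ((vac N i : ℕ) : ℤ)) (fun i => (vac N i : ℤ)) =
    ipZ (zc (vac N)) (zc (vac N)) := rfl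
  rw [h1, h2]
  push_cast
  by_cases hr : (r : ℂ) = 0
  · simp [hr]
  · field_simp
    ring

theorem norm_theta (N r : ℕ) (x : Fin N → ℕ) : ‖theta N r x‖ = 1 := by
  rw [theta_ee, norm_mul, norm_ee, norm_ee, one_mul]

theorem R0 {N r : ℕ} (hN : 0 < N) (hr : 0 < r) : ∃ c : ℂ, ‖c‖ = 1 ∧ ∀ x y : Fin N → ℕ,
    ∑ v ∈ colors N r, Smat N r x v * (theta N r v)⁻¹ * (starRingEnd ℂ) (Smat N r v y) =
      c * theta N r x * theta N r y * Smat N r x y := by
  have : NeZero N := ⟨hN.ne'⟩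
  have : NeZero r := ⟨hr.ne'⟩
  set ρ : ℝ := ipZ (zc (vac N)) (zc (vac N)) / (2 * r) with hρ
  refine ⟨(starRingEnd ℂ) (pf N r) * ee ρ ^ 3 * Gs N r (-1) 0, ?_, fun x y => ?_⟩
  · have h1 : ‖Gs N r (-1) 0‖ = nrm N r := by
      rw [nrm, ← norm_Gs_neg_one_sq, Real.sqrt_sq (norm_nonneg _)]
    rw [norm_mul, norm_mul, RCLike.norm_conj, norm_pf, norm_pow, norm_ee, one_pow, mul_one, h1,
      inv_mul_cancel₀ (nrm_pos hN hr).ne']
  · have h1 : ∀ v ∈ colors N r, Smat N r x v * (theta N r v)⁻¹ *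
        (starRingEnd ℂ) (Smat N r v y) = (pf N r * (starRingEnd ℂ) (pf N r) * ee ρ) *
        (alt N r 1 (zc x) (fun i => (v i : ℤ)) *
        ee (((-1 : ℤ) : ℝ) * ipZ (fun i => (v i : ℤ)) (fun i => (v i : ℤ)) / (2 * r)) *
        alt N r (-1) (zc y) (fun i => (v i : ℤ))) := by
      intro v _
      rw [Smat_alt, Smat_alt, theta_ee, map_mul, conj_alt, mul_inv, ← ee_neg, ← ee_neg, neg_neg,
        alt_comm (-1) (zc v) (zc y)]
      have e1 : -(ipZ (zc v) (zc v) / (2 * (r : ℝ))) =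
        ((-1 : ℤ) : ℝ) * ipZ (fun i => (v i : ℤ)) (fun i => (v i : ℤ)) / (2 * r) := by
        have : ipZ (zc v) (zc v) = ipZ (fun i => (v i : ℤ)) (fun i => (v i : ℤ)) := rfl
        rw [this]
        push_cast
        ring
      rw [e1, ← hρ]
      change pf N r * alt N r 1 (zc x) (fun i => (v i : ℤ)) * _ * _ = _
      have e2 : alt N r (-1) (zc y) (zc v) = alt N r (-1) (zc y) (fun i => (v i : ℤ)) := rfl
      rw [e2]
      ring
    rw [Finset.sum_congr rfl h1, ← Finset.mul_sum, color_sum_unimodular (by norm_num), Smat_alt,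
      theta_ee, theta_ee, ← hρ]
    have e3 : ∀ t : ℝ, -(((-1 : ℤ) : ℝ) * t) / (2 * (r : ℝ)) = t / (2 * r) := by
      intro t
      push_cast
      ring
    rw [e3, e3]
    have e4 : ee ρ * ee (-ρ) = 1 := by rw [← ee_add, add_neg_cancel, ee_zero]
    have e5 : ee ρ ^ 3 * (ee (-ρ) * ee (-ρ)) = ee ρ := by
      calc ee ρ ^ 3 * (ee (-ρ) * ee (-ρ)) = (ee ρ * ee (-ρ)) * (ee ρ * ee (-ρ)) * ee ρ := by ring
        _ = ee ρ := by rw [e4]; ring
    linear_combination (-(pf N r * (starRingEnd ℂ) (pf N r) * Gs N r (-1) 0 *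
      ee (ipZ (zc x) (zc x) / (2 * r)) * ee (ipZ (zc y) (zc y) / (2 * r)) *
      alt N r 1 (zc x) (zc y))) * e5

theorem Rpos {N r : ℕ} (hN : 0 < N) (hr : 0 < r) : ∃ c : ℂ, ‖c‖ = 1 ∧ ∀ x : Fin N → ℕ,
    ∑ v ∈ colors N r, Smat N r x v * theta N r v * Smat N r v (vac N) =
      c * (theta N r x)⁻¹ * Smat N r x (vac N) := by
  have : NeZero N := ⟨hN.ne'⟩
  have : NeZero r := ⟨hr.ne'⟩
  set ρ : ℝ := ipZ (zc (vac N)) (zc (vac N)) / (2 * r) with hρ
  refine ⟨pf N r * ee (-ρ) ^ 3 * Gs N r 1 0, ?_, fun x => ?_⟩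
  · have h1 : ‖Gs N r 1 0‖ = nrm N r := by
      rw [nrm, ← norm_Gs_one_sq, Real.sqrt_sq (norm_nonneg _)]
    rw [norm_mul, norm_mul, norm_pf, norm_pow, norm_ee, one_pow, mul_one, h1,
      inv_mul_cancel₀ (nrm_pos hN hr).ne']
  · have h1 : ∀ v ∈ colors N r, Smat N r x v * theta N r v * Smat N r v (vac N) =
        (pf N r * pf N r * ee (-ρ)) * (alt N r 1 (zc x) (fun i => (v i : ℤ)) *
        ee (((1 : ℤ) : ℝ) * ipZ (fun i => (v i : ℤ)) (fun i => (v i : ℤ)) / (2 * r)) *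
        alt N r 1 (zc (vac N)) (fun i => (v i : ℤ))) := by
      intro v _
      rw [Smat_alt, Smat_alt, theta_ee, alt_comm 1 (zc v) (zc (vac N))]
      have e1 : ipZ (zc v) (zc v) / (2 * (r : ℝ)) =
        ((1 : ℤ) : ℝ) * ipZ (fun i => (v i : ℤ)) (fun i => (v i : ℤ)) / (2 * r) := by
        have : ipZ (zc v) (zc v) = ipZ (fun i => (v i : ℤ)) (fun i => (v i : ℤ)) := rfl
        rw [this]
        push_cast
        ring
      rw [e1, ← hρ]
      have e2 : alt N r 1 (zc (vac N)) (zc v) = alt N r 1 (zc (vac N)) (fun i => (v i : ℤ)) := rfl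
      have e3 : alt N r 1 (zc x) (zc v) = alt N r 1 (zc x) (fun i => (v i : ℤ)) := rfl
      rw [e2, e3]
      ring
    rw [Finset.sum_congr rfl h1, ← Finset.mul_sum, color_sum_unimodular (by norm_num), Smat_alt,
      theta_ee, mul_inv, ← ee_neg, ← ee_neg, neg_neg, ← hρ]
    have e3 : ∀ t : ℝ, -(((1 : ℤ) : ℝ) * t) / (2 * (r : ℝ)) = -(t / (2 * r)) := by
      intro t
      push_cast
      ring
    rw [e3, e3, ← hρ]
    have e4 : ee ρ * ee (-ρ) = 1 := by rw [← ee_add, add_neg_cancel, ee_zero]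
    have e5 : ee (-ρ) ^ 3 * ee ρ = ee (-ρ) * ee (-ρ) := by
      calc ee (-ρ) ^ 3 * ee ρ = (ee ρ * ee (-ρ)) * (ee (-ρ) * ee (-ρ)) := by ring
        _ = ee (-ρ) * ee (-ρ) := by rw [e4]; ring
    linear_combination (-(pf N r * pf N r * Gs N r 1 0 *
      ee (-(ipZ (zc x) (zc x) / (2 * r))) * alt N r 1 (zc x) (zc (vac N)))) * e5

/-- the linear character sum -/
theorem Gs_zero {N r : ℕ} [NeZero N] [NeZero r] (u : Fin N → ℤ) [Decidable (u ∈ latL N r)] :
    Gs N r 0 u = if u ∈ latL N r then (Nat.card (Qg N r) : ℂ) else 0 := by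
  have hr := rne r
  have e1 : gf N r 0 u = fun v => ee (-(ipZ v u / r)) := by
    funext v
    rw [gf]
    congr 1
    push_cast
    ring
  rw [Gs]
  split_ifs with hu
  · rw [← qsum_one]
    congr 1
    funext v
    obtain ⟨k, hk⟩ := exists_ipZ_lat v hu
    rw [e1]
    simp only
    rw [hk, mul_div_cancel_left₀ _ hr]
    have := ee_int (-k)
    push_cast at this
    exact this
  · have h1 : ∃ b : Fin N → ℤ, ee (-(ipZ b u / r)) ≠ 1 := by
      by_contra hcon
      push Not at hcon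
      apply hu
      refine mem_latL_of_forall fun v => ?_
      obtain ⟨k, hk⟩ := ee_eq_one (hcon v)
      refine ⟨-k, ?_⟩
      push_cast
      have : ipZ v u / r = -k := by linarith
      rw [div_eq_iff hr] at this
      rw [this]
      ring
    obtain ⟨b, hb⟩ := h1
    refine qsum_char (b := b) (gf_inv 0 u) ?_ ?_
    · intro v w
      rw [e1]
      simp only
      rw [← ee_add, ipZ_add_left]
      congr 1
      ring
    · rw [e1]
      exact hb

theorem orth {N r : ℕ} (hN : 0 < N) (hr : 0 < r) {x y : Fin N → ℕ} (hx : StrictMono x)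
    (hy : StrictMono y) (hx' : ∀ i j, x i < x j + r) (hy' : ∀ i j, y i < y j + r)
    (hs : ∑ i, x i = ∑ i, y i) :
    ∑ v ∈ colors N r, Smat N r x v * (starRingEnd ℂ) (Smat N r y v) = if x = y then 1 else 0 := by
  classical
  have : NeZero N := ⟨hN.ne'⟩
  have : NeZero r := ⟨hr.ne'⟩
  have h1 : ∀ v ∈ colors N r, Smat N r x v * (starRingEnd ℂ) (Smat N r y v) =
      (pf N r * (starRingEnd ℂ) (pf N r)) * (alt N r 1 (zc x) (fun i => (v i : ℤ)) *
        ee (((0 : ℤ) : ℝ) * ipZ (fun i => (v i : ℤ)) (fun i => (v i : ℤ)) / (2 * r)) *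
        alt N r (-1) (zc y) (fun i => (v i : ℤ))) := by
    intro v _
    rw [Smat_alt, Smat_alt, map_mul, conj_alt]
    have e1 : ee (((0 : ℤ) : ℝ) * ipZ (fun i => (v i : ℤ)) (fun i => (v i : ℤ)) / (2 * r)) = 1 := by
      rw [Int.cast_zero, zero_mul, zero_div, ee_zero]
    rw [e1]
    have e2 : alt N r (-1) (zc y) (zc v) = alt N r (-1) (zc y) (fun i => (v i : ℤ)) := rfl
    have e3 : alt N r 1 (zc x) (zc v) = alt N r 1 (zc x) (fun i => (v i : ℤ)) := rfl
    rw [e2, e3]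
    ring
  rw [Finset.sum_congr rfl h1, ← Finset.mul_sum, color_sum_eq]
  have hsum : ∑ i, zc x i = ∑ i, zc y i := by
    simp only [zc]
    exact_mod_cast hs
  have h2 : ∀ σ ∈ (univ : Finset (Equiv.Perm (Fin N))),
      sg σ * Gs N r 0 (zc x + (-1 : ℤ) • (fun i => zc y (σ i))) =
      if σ = 1 then (if x = y then (Nat.card (Qg N r) : ℂ) else 0) else 0 := by
    intro σ _
    rw [Gs_zero]
    by_cases h : zc x + (-1 : ℤ) • (fun i => zc y (σ i)) ∈ latL N r
    · rw [if_pos h]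
      obtain ⟨c, l, hl, h3⟩ := h
      have h4 : ∀ i, zc x ((1 : Equiv.Perm (Fin N)) i) = zc y (σ i) + c + r * l i := by
        intro i
        have := h3 i
        simp only [Pi.add_apply, Pi.smul_apply, smul_eq_mul] at this
        rw [Equiv.Perm.one_apply]
        linarith
      obtain ⟨h5, h6⟩ := alcove_unique (x := zc x) (y := zc y)
        (fun i j hij => Int.ofNat_lt.2 (hx hij)) (fun i j hij => Int.ofNat_lt.2 (hy hij))
        (fun i j => by have := hx' i j; simp only [zc]; omega)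
        (fun i j => by have := hy' i j; simp only [zc]; omega) hl h4
      have h7 : c = 0 := by
        have h8 : ∑ i, zc x i = ∑ i, zc y i + N * c := by
          rw [Finset.sum_congr rfl fun i _ => h6 i, Finset.sum_add_distrib, Finset.sum_const,
            Finset.card_univ, Fintype.card_fin, nsmul_eq_mul]
        rw [hsum] at h8
        have h9 : (N : ℤ) * c = 0 := by linarith
        rcases mul_eq_zero.1 h9 with h10 | h10
        · exact absurd h10 (by exact_mod_cast hN.ne')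
        · exact h10
      have h8 : x = y := by
        funext i
        have := h6 i
        simp only [zc] at this
        omega
      rw [← h5, if_pos rfl, if_pos h8]
      simp [sg]
    · rw [if_neg h, mul_zero]
      by_cases hσ : σ = 1
      · rw [if_pos hσ, if_neg]
        rintro rfl
        apply h
        rw [hσ]
        have : zc x + (-1 : ℤ) • (fun i => zc x ((1 : Equiv.Perm (Fin N)) i)) = 0 := by
          funext i
          simp
        rw [this]
        exact (latL N r).zero_mem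
      · rw [if_neg hσ]
  rw [Finset.sum_congr rfl h2, Finset.sum_ite_eq' univ (1 : Equiv.Perm (Fin N))
    (fun _ => if x = y then (Nat.card (Qg N r) : ℂ) else 0), if_pos (Finset.mem_univ _)]
  split_ifs with hxy
  · have h3 : pf N r * (starRingEnd ℂ) (pf N r) = ((((nrm N r)⁻¹ ^ 2 : ℝ)) : ℂ) := by
      rw [Complex.mul_conj, Complex.normSq_eq_norm_sq, norm_pf]
    have h4 : (Nat.card (Qg N r) : ℂ) = ((nrm N r ^ 2 : ℝ) : ℂ) := by
      rw [nrm_sq, card_Qg']
      push_cast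
      ring
    rw [h3, h4, ← Complex.ofReal_mul, ← mul_pow, inv_mul_cancel₀ (nrm_pos hN hr).ne', one_pow]
    rfl
  · rw [mul_zero]

theorem S0_eq {N r : ℕ} (hN : 0 < N) (hr : 0 < r) {x : Fin N → ℕ} (hx : x ∈ colors N r) :
    (S0 N r x : ℂ) = Smat N r (vac N) x := by
  rw [Smat_vac hN hr hx, S0]
  congr 1
  rw [nrm, norm_D_vac]
  congr 1
  rw [colors, Finset.mem_filter, Fintype.mem_piFinset] at hx
  refine Finset.prod_congr rfl fun i _ => Finset.prod_congr rfl fun j hj => ?_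
  have hij : x i < x j := hx.2.1 (by simpa using hj)
  have h1 := Finset.mem_range.1 (hx.1 j)
  rw [norm_om_sub hij.le (by omega) hr]

theorem mem_supp {N r : ℕ} {x : Fin N → ℕ} : x ∈ supp N r ↔ x ∈ colors N r ∧
    ∃ (c : Fin (2 * N)) (σ : Equiv.Perm (Fin N)), ∀ i, (x (σ i) + i) % (2 * N) = c := by
  rw [supp, Finset.mem_filter]

/-- uniqueness of the permutation in the definition of `supp` -/
theorem supp_perm_unique {N : ℕ} {x : Fin N → ℕ} {σ σ' : Equiv.Perm (Fin N)}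
    (h : ∀ i j : Fin N, ((2 * N : ℕ) : ℤ) ∣ ((x (σ i) : ℤ) + (i : ℕ)) - ((x (σ j) : ℤ) + (j : ℕ)))
    (h' : ∀ i j : Fin N, ((2 * N : ℕ) : ℤ) ∣
      ((x (σ' i) : ℤ) + (i : ℕ)) - ((x (σ' j) : ℤ) + (j : ℕ))) : σ = σ' := by
  by_cases hN : N = 0
  · subst hN
    exact Subsingleton.elim _ _
  have : NeZero N := ⟨hN⟩
  -- first the two constants agree
  have key : ∀ i j : Fin N, σ i = σ' j → (i : ℕ) = j := by
    set i0 := σ.symm (σ' 0) with hi0
    set j0 := σ'.symm (σ 0) with hj0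
    have e1 : σ i0 = σ' 0 := by rw [hi0, Equiv.apply_symm_apply]
    have e2 : σ' j0 = σ 0 := by rw [hj0, Equiv.apply_symm_apply]
    have z : ((0 : Fin N) : ℕ) = 0 := rfl
    obtain ⟨k1, h1⟩ := h i0 0
    obtain ⟨k2, h2⟩ := h' j0 0
    rw [e1, z] at h1
    rw [e2, z] at h2
    have hi := i0.isLt
    have hj := j0.isLt
    have h3 : ((i0 : ℕ) : ℤ) + ((j0 : ℕ) : ℤ) = ((2 * N : ℕ) : ℤ) * (k1 + k2) := by
      push_cast at h1 h2 ⊢
      linarith
    have h4 : k1 + k2 = 0 := by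
      by_contra hne
      rcases lt_or_gt_of_ne hne with h5 | h5
      · have : ((2 * N : ℕ) : ℤ) * (k1 + k2) ≤ 0 :=
          mul_nonpos_of_nonneg_of_nonpos (by positivity) h5.le
        have h6 : ((i0 : ℕ) : ℤ) + ((j0 : ℕ) : ℤ) = 0 := by omega
        rw [h6] at h3
        rcases mul_eq_zero.1 h3.symm with h7 | h7
        · have : 0 < N := Nat.pos_of_ne_zero hN
          omega
        · exact hne h7
      · have : ((2 * N : ℕ) : ℤ) * 1 ≤ ((2 * N : ℕ) : ℤ) * (k1 + k2) :=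
          mul_le_mul_of_nonneg_left (by omega) (by positivity)
        omega
    rw [h4, mul_zero] at h3
    have h5 : (i0 : ℕ) = 0 := by omega
    have h6 : σ 0 = σ' 0 := by
      have : i0 = 0 := Fin.ext h5
      rw [← this, e1, this]
    intro i j hij
    obtain ⟨k3, h7⟩ := h i 0
    obtain ⟨k4, h8⟩ := h' j 0
    rw [hij, h6, z] at h7
    rw [z] at h8
    have hi := i.isLt
    have hj := j.isLt
    have h9 : ((i : ℕ) : ℤ) - ((j : ℕ) : ℤ) = ((2 * N : ℕ) : ℤ) * (k3 - k4) := by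
      push_cast at h7 h8 ⊢
      linarith
    by_contra hne
    have h10 : k3 - k4 ≠ 0 := by
      intro h11
      rw [h11, mul_zero] at h9
      omega
    have h11 : ((2 * N : ℕ) : ℤ) ≤ |((2 * N : ℕ) : ℤ) * (k3 - k4)| := by
      rw [abs_mul, abs_of_nonneg (by positivity)]
      have := Int.one_le_abs h10
      nlinarith
    rw [← h9, le_abs] at h11
    omega
  ext i
  have h1 := key i (σ'.symm (σ i)) (by rw [Equiv.apply_symm_apply])
  have h2 : i = σ'.symm (σ i) := Fin.ext h1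
  have h3 : σ' i = σ i := by
    conv_lhs => rw [h2]
    rw [Equiv.apply_symm_apply]
  rw [h3]

theorem norm_eN_sq {N r : ℕ} (hN : 2 ≤ N) (hr : 0 < r) (hd : 2 * N ∣ r) {x : Fin N → ℕ}
    (hx : x ∈ colors N r) : ‖eN N r x‖ ^ 2 =
      if x ∈ supp N r then (2 * N : ℝ) ^ (N - 1) / (N * (r : ℝ) ^ (N - 1)) else 0 := by
  classical
  obtain ⟨s, rfl⟩ := hd
  have hN0 : 0 < N := by omega
  have i1 : NeZero N := ⟨hN0.ne'⟩
  have i2 : NeZero (2 * N * s) := ⟨hr.ne'⟩
  have i3 : NeZero (2 * N) := ⟨by omega⟩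
  have i4 : NeZero s := ⟨by rintro rfl; simp at hr⟩
  set r := 2 * N * s with hrdef
  set ρ : ℝ := ipZ (zc (vac N)) (zc (vac N)) / (2 * r) with hρ
  have h1 : eN N r x = pf N r * pf N r * ee (-ρ) ^ (2 * N) *
      ∑ σ : Equiv.Perm (Fin N), sg σ *
        Gs N r ((2 * N : ℕ) : ℤ) (zc (vac N) + (1 : ℤ) • (fun i => zc x (σ i))) := by
    rw [← color_sum_eq, eN, Finset.mul_sum]
    refine Finset.sum_congr rfl fun v hv => ?_
    rw [S0_eq hN0 hr hv, Smat_alt, Smat_alt, theta_ee, alt_comm 1 (zc v) (zc x), mul_pow,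
      ← ee_natMul (2 * N) (ipZ (zc v) (zc v) / (2 * r)), ← hρ]
    have e1 : ((2 * N : ℕ) : ℝ) * (ipZ (zc v) (zc v) / (2 * (r : ℝ))) =
      (((2 * N : ℕ) : ℤ) : ℝ) * ipZ (fun i => (v i : ℤ)) (fun i => (v i : ℤ)) / (2 * r) := by
      have : ipZ (zc v) (zc v) = ipZ (fun i => (v i : ℤ)) (fun i => (v i : ℤ)) := rfl
      rw [this]
      push_cast
      ring
    rw [e1]
    have e2 : alt N r 1 (zc (vac N)) (zc v) = alt N r 1 (zc (vac N)) (fun i => (v i : ℤ)) := rfl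
    have e3 : alt N r 1 (zc x) (zc v) = alt N r 1 (zc x) (fun i => (v i : ℤ)) := rfl
    rw [e2, e3]
    ring
  have hu : ∀ (σ : Equiv.Perm (Fin N)) (i : Fin N),
      (zc (vac N) + (1 : ℤ) • (fun i => zc x (σ i))) i = ((x (σ i) : ℤ) + (i : ℕ)) := by
    intro σ i
    simp only [Pi.add_apply, one_smul, zc, vac]
    ring
  split_ifs with hxs
  · obtain ⟨-, c, σ₀, hc⟩ := mem_supp.1 hxs
    have hdiv : ∀ i j : Fin N, ((2 * N : ℕ) : ℤ) ∣
        ((x (σ₀ i) : ℤ) + (i : ℕ)) - ((x (σ₀ j) : ℤ) + (j : ℕ)) := by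
      intro i j
      have h2 : (x (σ₀ i) + i) ≡ (x (σ₀ j) + j) [MOD (2 * N)] := by
        rw [Nat.ModEq, hc i, hc j]
      have h3 := (Nat.modEq_iff_dvd.1 h2.symm)
      push_cast at h3 ⊢
      exact h3
    have h2 : ∑ σ : Equiv.Perm (Fin N), sg σ *
        Gs N r ((2 * N : ℕ) : ℤ) (zc (vac N) + (1 : ℤ) • (fun i => zc x (σ i))) =
        sg σ₀ * Gs N r ((2 * N : ℕ) : ℤ) (zc (vac N) + (1 : ℤ) • (fun i => zc x (σ₀ i))) := by
      refine Finset.sum_eq_single_of_mem σ₀ (Finset.mem_univ _) fun σ _ hσ => ?_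
      have h3 : ∃ i j : Fin N, ¬ ((2 * N : ℕ) : ℤ) ∣
          ((x (σ i) : ℤ) + (i : ℕ)) - ((x (σ j) : ℤ) + (j : ℕ)) := by
        by_contra hcon
        push Not at hcon
        exact hσ (supp_perm_unique hcon hdiv)
      obtain ⟨i, j, hij⟩ := h3
      have h4 := Gs_eq_zero (N := N) (2 * N) s
        (u := zc (vac N) + (1 : ℤ) • (fun i => zc x (σ i))) (i := i) (j := j)
        (by rw [hu, hu]; exact hij)
      rw [h4, mul_zero]
    have h3 : ‖Gs N r ((2 * N : ℕ) : ℤ) (zc (vac N) + (1 : ℤ) • (fun i => zc x (σ₀ i)))‖ =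
        ‖Gs N r ((2 * N : ℕ) : ℤ) 0‖ :=
      norm_Gs_of_dvd (N := N) (2 * N) s (fun i => by rw [hu, hu]; exact hdiv i 0)
    have h4 : ‖Gs N r ((2 * N : ℕ) : ℤ) 0‖ ^ 2 =
      (N * (r : ℝ) ^ (N - 1)) * ((2 * N : ℕ) : ℝ) ^ (N - 1) := norm_Gs_sq (N := N) (2 * N) s
    rw [h1, h2, norm_mul, norm_mul, norm_mul, norm_mul, norm_pow, norm_ee, one_pow, norm_sg,
      one_mul, mul_one, h3, mul_pow, h4, norm_pf]
    have h5 := nrm_sq N r
    have h6 := (nrm_pos hN0 hr).ne'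
    have h7 : ((nrm N r)⁻¹ * (nrm N r)⁻¹) ^ 2 = ((N * (r : ℝ) ^ (N - 1)))⁻¹ ^ 2 := by
      rw [← h5]
      field_simp
    rw [h7]
    have h8 : (N * (r : ℝ) ^ (N - 1)) ≠ 0 := by
      rw [← h5]
      positivity
    push_cast
    field_simp
  · have h2 : ∑ σ : Equiv.Perm (Fin N), sg σ *
        Gs N r ((2 * N : ℕ) : ℤ) (zc (vac N) + (1 : ℤ) • (fun i => zc x (σ i))) = 0 := by
      refine Finset.sum_eq_zero fun σ _ => ?_
      have h3 : ∃ i j : Fin N, ¬ ((2 * N : ℕ) : ℤ) ∣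
          ((x (σ i) : ℤ) + (i : ℕ)) - ((x (σ j) : ℤ) + (j : ℕ)) := by
        by_contra hcon
        push Not at hcon
        apply hxs
        refine mem_supp.2 ⟨hx, ⟨(x (σ 0) + ((0 : Fin N) : ℕ)) % (2 * N),
          Nat.mod_lt _ (by omega)⟩, σ, fun i => ?_⟩
        have h4 := hcon 0 i
        have h5 : (x (σ i) + i) ≡ (x (σ 0) + ((0 : Fin N) : ℕ)) [MOD (2 * N)] := by
          rw [Nat.modEq_iff_dvd]
          push_cast at h4 ⊢
          exact h4
        exact h5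
      obtain ⟨i, j, hij⟩ := h3
      have h4 := Gs_eq_zero (N := N) (2 * N) s
        (u := zc (vac N) + (1 : ℤ) • (fun i => zc x (σ i))) (i := i) (j := j)
        (by rw [hu, hu]; exact hij)
      rw [h4, mul_zero]
    rw [h1, h2, mul_zero, norm_zero]
    norm_num

end Pool.Agent.Helper21.AEC
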