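import Mathlib
import Pool.Agent.Helper15.RT.QDefs
import Pool.Agent.Helper21.AEC.Braid

/-!
# The cabled braid word `word5`
-/

namespace Pool.Agent.Helper21.AEC

open Pool.Agent.Helper15.RT

section eval

variable {A : Type*} [Ring A] {m : ℕ} {s s' : ℕ → A}

theorem evalBraid_append (s s' : ℕ → A) (v w : List (ℕ × Bool)) :
    evalBraid s s' (v ++ w) = evalBraid s s' v * evalBraid s s' w := by
  rw [evalBraid, List.map_append, List.prod_append]
  rfl

theorem inv_nil : inv [] = [] := rfl

theorem inv_cons (p : ℕ × Bool) (w : List (ℕ × Bool)) : inv (p :: w) = inv w ++ [(p.1, !p.2)] := by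
  rw [inv, List.map_cons, List.reverse_cons]
  rfl

theorem evalBraid_inv_mul (h2 : ∀ j < m, s' j * s j = 1) :
    ∀ w : List (ℕ × Bool), (∀ p ∈ w, p.1 < m ∧ p.2 = true) →
      evalBraid s s' (inv w) * posEval s w = 1
  | [], _ => by simp [inv_nil, evalBraid, posEval]
  | (i, e) :: w, h => by
    obtain ⟨h3, h4⟩ := h _ (List.mem_cons_self ..)
    have ih := evalBraid_inv_mul h2 w fun p hp => h p (List.mem_cons_of_mem _ hp)
    change i < m at h3
    change e = true at h4
    subst h4
    have h5 : posEval s ((i, true) :: w) = s i * posEval s w := by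
      rw [posEval, List.map_cons, List.prod_cons]
      rfl
    have h6 : evalBraid s s' [(((i, true) : ℕ × Bool).1, !((i, true) : ℕ × Bool).2)] = s' i := by
      simp [evalBraid]
    rw [inv_cons, evalBraid_append, h5, h6, mul_assoc, ← mul_assoc (s' i), h2 i h3, one_mul, ih]

theorem mul_evalBraid_inv (h1 : ∀ j < m, s j * s' j = 1) :
    ∀ w : List (ℕ × Bool), (∀ p ∈ w, p.1 < m ∧ p.2 = true) →
      posEval s w * evalBraid s s' (inv w) = 1
  | [], _ => by simp [inv_nil, evalBraid, posEval]
  | (i, e) :: w, h => by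
    obtain ⟨h3, h4⟩ := h _ (List.mem_cons_self ..)
    have ih := mul_evalBraid_inv h1 w fun p hp => h p (List.mem_cons_of_mem _ hp)
    change i < m at h3
    change e = true at h4
    subst h4
    have h5 : posEval s ((i, true) :: w) = s i * posEval s w := by
      rw [posEval, List.map_cons, List.prod_cons]
      rfl
    have h6 : evalBraid s s' [(((i, true) : ℕ × Bool).1, !((i, true) : ℕ × Bool).2)] = s' i := by
      simp [evalBraid]
    rw [inv_cons, evalBraid_append, h5, h6, mul_assoc, ← mul_assoc (posEval s w), ih, one_mul,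
      h1 i h3]

theorem mem_block {o a b : ℕ} (h : o + a + b ≤ m + 1) {p : ℕ × Bool} (hp : p ∈ block o a b) :
    p.1 < m ∧ p.2 = true := by
  rw [block, List.mem_flatMap] at hp
  obtain ⟨t, ht, hp⟩ := hp
  rw [List.mem_reverse, List.mem_range] at ht
  rw [List.mem_map] at hp
  obtain ⟨u, hu, rfl⟩ := hp
  rw [List.mem_range] at hu
  exact ⟨by change o + t + u < m; omega, rfl⟩

/-- the inverse of a block crossing -/
def XI (s s' : ℕ → A) (o a b : ℕ) : A := evalBraid s s' (inv (block o a b))

theorem XI_mul (h2 : ∀ j < m, s' j * s j = 1) {o a b : ℕ} (h : o + a + b ≤ m + 1) :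
    XI s s' o a b * XB s o a b = 1 :=
  evalBraid_inv_mul h2 _ fun _ hp => mem_block h hp

theorem mul_XI (h1 : ∀ j < m, s j * s' j = 1) {o a b : ℕ} (h : o + a + b ≤ m + 1) :
    XB s o a b * XI s s' o a b = 1 :=
  mul_evalBraid_inv h1 _ fun _ hp => mem_block h hp

theorem eq_of_inv {x y z : A} (h : x * y = 1) (h' : y * z = 1) : x = z := by
  rw [← mul_one x, ← h', ← mul_assoc, h, one_mul]

theorem XI_add_right (hs : BraidRel m s) (h1 : ∀ j < m, s j * s' j = 1)
    (h2 : ∀ j < m, s' j * s j = 1) {o a b c : ℕ} (h : o + a + b + c ≤ m + 1) :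
    XI s s' (o + b) a c * XI s s' o a b = XI s s' o a (b + c) := by
  refine eq_of_inv (y := XB s o a (b + c)) ?_ (mul_XI h1 (by omega))
  rw [XB_add_right hs h, mul_assoc, ← mul_assoc (XI s s' o a b), XI_mul h2 (by omega), one_mul,
    XI_mul h2 (by omega)]

theorem XI_add_left (h1 : ∀ j < m, s j * s' j = 1)
    (h2 : ∀ j < m, s' j * s j = 1) {o a c b : ℕ} (h : o + a + b + c ≤ m + 1) :
    XI s s' o a b * XI s s' (o + a) c b = XI s s' o (a + c) b := by
  refine eq_of_inv (y := XB s o (a + c) b) ?_ (mul_XI h1 (by omega))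
  rw [XB_add_left, mul_assoc, ← mul_assoc (XI s s' (o + a) c b), XI_mul h2 (by omega), one_mul,
    XI_mul h2 (by omega)]

theorem cable_word5_eq (a b c d e : ℕ) : cable [a, b, c, d, e] word5 =
    inv (block (a + b + c) e d) ++ (inv (block (a + b) e c) ++ (inv (block a e b) ++
    (inv (block 0 e a) ++ (inv (block 0 a e) ++ (inv (block a b e) ++
    (inv (block (a + b) c e) ++ (inv (block (a + b + c) d e) ++
    (inv (block (a + b) d c) ++ (inv (block a d b) ++ (inv (block 0 d a) ++
    (inv (block 0 a d) ++ (inv (block a b d) ++ (inv (block (a + b) c d) ++ []))))))))))))) := by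
  simp [word5, cable, ← add_assoc]

/-- the first part -/
def X8 (s s' : ℕ → A) (a b c d e : ℕ) : A :=
  XI s s' 0 e (a + b + c + d) * XI s s' 0 (a + b + c + d) e

def X6 (s s' : ℕ → A) (a b c d : ℕ) : A :=
  XI s s' 0 d (a + b + c) * XI s s' 0 (a + b + c) d

theorem evalBraid_word5 (hs : BraidRel m s)
    (h1 : ∀ j < m, s j * s' j = 1) (h2 : ∀ j < m, s' j * s j = 1) (a b c d e : ℕ)
    (h : a + b + c + d + e ≤ m + 1) :
    evalBraid s s' (cable [a, b, c, d, e] word5) = X8 s s' a b c d e * X6 s s' a b c d := by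
  have e1 : XI s s' (a + b + c) e d * (XI s s' (a + b) e c * (XI s s' a e b * XI s s' 0 e a)) =
      XI s s' 0 e (a + b + c + d) := by
    have := XI_add_right hs h1 h2 (o := 0) (a := e) (b := a) (c := b) (by omega)
    rw [zero_add] at this
    rw [this]
    have := XI_add_right hs h1 h2 (o := 0) (a := e) (b := a + b) (c := c) (by omega)
    rw [zero_add] at this
    rw [this]
    have := XI_add_right hs h1 h2 (o := 0) (a := e) (b := a + b + c) (c := d) (by omega)
    rw [zero_add] at this
    rw [this]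
  have e2 : ((XI s s' 0 a e * XI s s' a b e) * XI s s' (a + b) c e) * XI s s' (a + b + c) d e =
      XI s s' 0 (a + b + c + d) e := by
    have := XI_add_left h1 h2 (o := 0) (a := a) (b := e) (c := b) (by omega)
    rw [zero_add] at this
    rw [this]
    have := XI_add_left h1 h2 (o := 0) (a := a + b) (b := e) (c := c) (by omega)
    rw [zero_add] at this
    rw [this]
    have := XI_add_left h1 h2 (o := 0) (a := a + b + c) (b := e) (c := d) (by omega)
    rw [zero_add] at this
    rw [this]
  have e3 : XI s s' (a + b) d c * (XI s s' a d b * XI s s' 0 d a) =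
      XI s s' 0 d (a + b + c) := by
    have := XI_add_right hs h1 h2 (o := 0) (a := d) (b := a) (c := b) (by omega)
    rw [zero_add] at this
    rw [this]
    have := XI_add_right hs h1 h2 (o := 0) (a := d) (b := a + b) (c := c) (by omega)
    rw [zero_add] at this
    rw [this]
  have e4 : (XI s s' 0 a d * XI s s' a b d) * XI s s' (a + b) c d =
      XI s s' 0 (a + b + c) d := by
    have := XI_add_left h1 h2 (o := 0) (a := a) (b := d) (c := b) (by omega)
    rw [zero_add] at this
    rw [this]
    have := XI_add_left h1 h2 (o := 0) (a := a + b) (b := d) (c := c) (by omega)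
    rw [zero_add] at this
    rw [this]
  have e5 : evalBraid s s' ([] : List (ℕ × Bool)) = 1 := rfl
  rw [cable_word5_eq, X8, X6, ← e1, ← e2, ← e3, ← e4]
  simp only [evalBraid_append, e5, mul_one]
  simp only [XI, mul_assoc]

theorem X8_mul (h2 : ∀ j < m, s' j * s j = 1) (a b c d e : ℕ)
    (h : a + b + c + d + e ≤ m + 1) :
    X8 s s' a b c d e * (XB s 0 (a + b + c + d) e * XB s 0 e (a + b + c + d)) = 1 := by
  rw [X8, mul_assoc, ← mul_assoc (XI s s' 0 (a + b + c + d) e), XI_mul h2 (by omega), one_mul,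
    XI_mul h2 (by omega)]

theorem X6_mul (h2 : ∀ j < m, s' j * s j = 1) (a b c d : ℕ)
    (h : a + b + c + d ≤ m + 1) :
    X6 s s' a b c d * (XB s 0 (a + b + c) d * XB s 0 d (a + b + c)) = 1 := by
  rw [X6, mul_assoc, ← mul_assoc (XI s s' 0 (a + b + c) d), XI_mul h2 (by omega), one_mul,
    XI_mul h2 (by omega)]

theorem cable_word5 (hs : BraidRel m s)
    (h1 : ∀ j < m, s j * s' j = 1) (h2 : ∀ j < m, s' j * s j = 1) (a b c d e : ℕ)
    (h : a + b + c + d + e ≤ m + 1) :
    evalBraid s s' (cable [a, b, c, d, e] word5) *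
      ((XB s 0 (a + b + c) d * XB s 0 d (a + b + c)) *
       (XB s 0 (a + b + c + d) e * XB s 0 e (a + b + c + d))) = 1 := by
  rw [evalBraid_word5 hs h1 h2 a b c d e h, mul_assoc, ← mul_assoc (X6 s s' a b c d),
    X6_mul h2 a b c d (by omega), one_mul, X8_mul h2 a b c d e h]

theorem isUnit_JM {n : ℕ} (h : ∀ j < n, IsUnit (s j)) : IsUnit (JM s n) := by
  induction n with
  | zero => exact isUnit_one
  | succ n ih =>
    exact ((h n (Nat.lt_succ_self n)).mul (ih fun j hj => h j (by omega))).mul
      (h n (Nat.lt_succ_self n))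

theorem isUnit_FT {n : ℕ} (h : ∀ j, j + 1 < n → IsUnit (s j)) : IsUnit (FT s n) := by
  induction n with
  | zero => exact isUnit_one
  | succ n ih =>
    exact (ih fun j hj => h j (by omega)).mul (isUnit_JM fun j hj => h j (by omega))

theorem evalBraid_word5_FT (hs : BraidRel m s)
    (h1 : ∀ j < m, s j * s' j = 1) (h2 : ∀ j < m, s' j * s j = 1) (a b c d e : ℕ)
    (h : a + b + c + d + e ≤ m + 1) {P4' P5' : A}
    (h4 : FT s (a + b + c + d) * P4' = 1) (h4' : P4' * FT s (a + b + c + d) = 1)
    (h5 : FT s (a + b + c + d + e) * P5' = 1) :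
    evalBraid s s' (cable [a, b, c, d, e] word5) =
      FT (fun j => s (a + b + c + d + j)) e * P5' * FT s (a + b + c + d) *
        FT (fun j => s (a + b + c + j)) d * P4' * FT s (a + b + c) := by
  set E8 := XB s 0 (a + b + c + d) e * XB s 0 e (a + b + c + d) with hE8
  set E6 := XB s 0 (a + b + c) d * XB s 0 d (a + b + c) with hE6
  set T5 := FT (fun j => s (a + b + c + d + j)) e with hT5
  set T4 := FT (fun j => s (a + b + c + j)) d with hT4
  have f5 : FT s (a + b + c + d + e) = FT s (a + b + c + d) * E8 * T5 := FT_add hs h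
  have f4 : FT s (a + b + c + d) = FT s (a + b + c) * E6 * T4 := FT_add hs (by omega)
  have g8 : E8 * (T5 * P5' * FT s (a + b + c + d)) = 1 := by
    calc E8 * (T5 * P5' * FT s (a + b + c + d)) =
        P4' * FT s (a + b + c + d) * E8 * T5 * P5' * FT s (a + b + c + d) := by
          rw [h4']; simp only [mul_assoc, one_mul]
      _ = P4' * (FT s (a + b + c + d + e) * P5') * FT s (a + b + c + d) := by
          rw [f5]; simp only [mul_assoc]
      _ = 1 := by rw [h5, mul_one, h4']
  obtain ⟨Q, hQ, -⟩ := isUnit_iff_exists.mp (isUnit_FT (s := s) (n := a + b + c) fun j hj =>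
    isUnit_iff_exists.mpr ⟨s' j, h1 j (by omega), h2 j (by omega)⟩)
  obtain ⟨-, hQ'⟩ : FT s (a + b + c) * Q = 1 ∧ Q * FT s (a + b + c) = 1 := by
    refine ⟨hQ, ?_⟩
    obtain ⟨Q', hQ1, hQ2⟩ := isUnit_iff_exists.mp (isUnit_FT (s := s) (n := a + b + c) fun j hj =>
      isUnit_iff_exists.mpr ⟨s' j, h1 j (by omega), h2 j (by omega)⟩)
    rw [← eq_of_inv hQ2 hQ]
    exact hQ2
  have g6 : E6 * (T4 * P4' * FT s (a + b + c)) = 1 := by
    calc E6 * (T4 * P4' * FT s (a + b + c)) =
        Q * FT s (a + b + c) * E6 * T4 * P4' * FT s (a + b + c) := by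
          rw [hQ']; simp only [mul_assoc, one_mul]
      _ = Q * (FT s (a + b + c + d) * P4') * FT s (a + b + c) := by
          rw [f4]; simp only [mul_assoc]
      _ = 1 := by rw [h4, mul_one, hQ']
  rw [evalBraid_word5 hs h1 h2 a b c d e h, eq_of_inv (X8_mul h2 a b c d e h) g8,
    eq_of_inv (X6_mul h2 a b c d (by omega)) g6]
  simp only [mul_assoc]

end eval

theorem writhe_append (v w : List (ℕ × Bool)) : writhe (v ++ w) = writhe v + writhe w := by
  rw [writhe, List.map_append, List.sum_append]
  rfl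

theorem writhe_inv (w : List (ℕ × Bool)) : writhe (inv w) = -writhe w := by
  induction w with
  | nil => rfl
  | cons p w ih =>
    rw [inv_cons, writhe_append, ih]
    obtain ⟨i, e⟩ := p
    have h : writhe ((i, e) :: w) = (if e then (1 : ℤ) else -1) + writhe w := by
      rw [writhe, List.map_cons, List.sum_cons]
      rfl
    have h' : writhe [(((i, e) : ℕ × Bool).1, !((i, e) : ℕ × Bool).2)] =
        if (!e) then (1 : ℤ) else -1 := by
      simp [writhe]
    rw [h, h']
    cases e <;> simp

theorem writhe_block (o a b : ℕ) : writhe (block o a b) = a * b := by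
  have h : ∀ w : List (ℕ × Bool), (∀ p ∈ w, p.2 = true) → writhe w = w.length := by
    intro w hw
    induction w with
    | nil => rfl
    | cons p w ih =>
      rw [writhe, List.map_cons, List.sum_cons, List.length_cons]
      have := ih fun q hq => hw q (List.mem_cons_of_mem _ hq)
      rw [writhe] at this
      rw [this, hw p (List.mem_cons_self ..)]
      simp
      ring
  rw [h]
  · simp [block, List.length_flatMap]
  · intro p hp
    exact (mem_block (m := o + a + b) (by omega) hp).2

theorem writhe_word5 (a b c d e : ℕ) : writhe (cable [a, b, c, d, e] word5) =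
    -2 * ((a + b + c) * d + (a + b + c + d) * e : ℤ) := by
  rw [cable_word5_eq]
  simp only [writhe_append, writhe_inv, writhe_block]
  simp [writhe]
  ring

end Pool.Agent.Helper21.AEC
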